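import Pool.Agent.TH635.NP.Fam
import Pool.Agent.TH635.AA.Pet

/-!
# PET induction in nilpotent groups: few zeros, and values in a fixed subgroup
-/

set_option autoImplicit false

namespace Pool.Agent.TH635.NP

open Pool.Agent.TH635.AA (Pol Pol_mono Pol_diff dd_succ Pol_one_iff Pol_const card_sq_le
  rpow_le_of_le Pol_zero_fun)

noncomputable section

section bd

variable {N : Type*} [AddCommGroup N]

/-- uniform power saving bounds for the zeros of a class of functions -/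
def Bds (P : (ℤ → N) → Prop) : Prop :=
  ∃ C δ : ℝ, 0 < C ∧ 0 < δ ∧ δ ≤ 1 ∧ ∀ V, P V → ∀ L : ℕ, 1 ≤ L → ∀ Z : Finset ℕ,
    (∀ t ∈ Z, t < L ∧ V (t : ℤ) = 0) → (Z.card : ℝ) ≤ C * (L : ℝ) ^ (1 - δ)

theorem Bds_mono {P Q : (ℤ → N) → Prop} (h : Bds P) (hPQ : ∀ B, Q B → P B) : Bds Q := by
  obtain ⟨C, δ, hC, hδ, hδ1, h⟩ := h
  exact ⟨C, δ, hC, hδ, hδ1, fun B hB => h B (hPQ B hB)⟩

theorem Bds_false {P : (ℤ → N) → Prop} (h : ∀ B, ¬ P B) : Bds P :=
  ⟨1, 1, one_pos, one_pos, le_rfl, fun B hB => absurd hB (h B)⟩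

theorem Bds_or {P Q : (ℤ → N) → Prop} (hP : Bds P) (hQ : Bds Q) :
    Bds (fun B => P B ∨ Q B) := by
  obtain ⟨C, δ, hC, hδ, hδ1, h⟩ := hP
  obtain ⟨C', δ', hC', hδ', hδ1', h'⟩ := hQ
  refine ⟨C + C', min δ δ', by positivity, lt_min hδ hδ', (min_le_left _ _).trans hδ1, ?_⟩
  intro B hB L hL Z hZ
  have h1 := rpow_le_of_le hL (min_le_left δ δ')
  have h2 := rpow_le_of_le hL (min_le_right δ δ')
  have h3 : (0 : ℝ) ≤ (L : ℝ) ^ (1 - min δ δ') := by positivity
  rcases hB with hB | hB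
  · refine (h B hB L hL Z hZ).trans ?_
    nlinarith [mul_le_mul_of_nonneg_left h1 hC.le]
  · refine (h' B hB L hL Z hZ).trans ?_
    nlinarith [mul_le_mul_of_nonneg_left h2 hC'.le]

theorem Bds_finset {ι : Type*} (I : Finset ι) (P : ι → (ℤ → N) → Prop)
    (h : ∀ i ∈ I, Bds (P i)) : Bds (fun B => ∃ i ∈ I, P i B) := by
  classical
  induction I using Finset.induction_on with
  | empty =>
    apply Bds_false
    rintro B ⟨i, hi, _⟩
    exact absurd hi (Finset.notMem_empty i)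
  | insert a I ha ih =>
    have h1 := Bds_or (h a (Finset.mem_insert_self a I))
      (ih fun i hi => h i (Finset.mem_insert_of_mem hi))
    apply Bds_mono h1
    rintro B ⟨i, hi, hB⟩
    rcases Finset.mem_insert.mp hi with rfl | hi
    · exact Or.inl hB
    · exact Or.inr ⟨i, hi, hB⟩

/-- the differencing step -/
theorem Bds_diff {P Q : (ℤ → N) → Prop} (hQ : Bds Q)
    (h : ∀ V, P V → ∀ h : ℕ, 1 ≤ h → ∃ V', Q V' ∧
      ∀ t : ℤ, V (t + h) - V t = 0 → V' t = 0) : Bds P := by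
  classical
  obtain ⟨C, δ, hC, hδ, hδ1, hQ⟩ := hQ
  refine ⟨1 + 2 * C, δ / 2, by positivity, by positivity, by linarith, ?_⟩
  intro V hV L hL Z hZ
  have hL0 : (0 : ℝ) < L := by exact_mod_cast hL
  have hL1 : (1 : ℝ) ≤ L := by exact_mod_cast hL
  have hZL : Z.card ≤ L := by
    have : Z ⊆ Finset.range L := fun t ht => Finset.mem_range.mpr (hZ t ht).1
    simpa using Finset.card_le_card this
  have h1 := card_sq_le Z fun t ht => (hZ t ht).1
  have h2 : ∀ h ∈ Finset.Ico 1 L, ((Z.filter fun t => t + h ∈ Z).card : ℝ) ≤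
      C * (L : ℝ) ^ (1 - δ) := by
    intro s hs
    obtain ⟨V', hV', hz⟩ := h V hV s (Finset.mem_Ico.mp hs).1
    apply hQ V' hV' L hL
    intro t ht
    rw [Finset.mem_filter] at ht
    refine ⟨(hZ t ht.1).1, hz _ ?_⟩
    rw [(hZ t ht.1).2]
    have := (hZ _ ht.2).2
    push_cast at this
    rw [this, sub_zero]
  have h3 : (∑ h ∈ Finset.Ico 1 L, ((Z.filter fun t => t + h ∈ Z).card : ℝ)) ≤
      L * (C * (L : ℝ) ^ (1 - δ)) := by
    refine (Finset.sum_le_sum h2).trans ?_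
    rw [Finset.sum_const, nsmul_eq_mul, Nat.card_Ico]
    apply mul_le_mul_of_nonneg_right _ (by positivity)
    exact_mod_cast Nat.sub_le _ _
  have h4 : ((Z.card : ℝ)) ^ 2 ≤ Z.card + 2 * (L * (C * (L : ℝ) ^ (1 - δ))) := by
    have h5 : ((Z.card : ℝ)) ^ 2 ≤
        Z.card + 2 * ∑ h ∈ Finset.Ico 1 L, ((Z.filter fun t => t + h ∈ Z).card : ℝ) := by
      exact_mod_cast h1
    linarith
  have hZL' : (Z.card : ℝ) ≤ L := by exact_mod_cast hZL
  set X : ℝ := (L : ℝ) ^ (1 - δ / 2) with hX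
  have hX0 : 0 < X := Real.rpow_pos_of_pos hL0 _
  have hXX : X * X = L * (L : ℝ) ^ (1 - δ) := by
    rw [hX, ← Real.rpow_add hL0]
    conv_rhs => rw [← Real.rpow_one_add' hL0.le (by linarith)]
    congr 1
    ring
  have hXL : (L : ℝ) ≤ X * X := by
    rw [hXX]
    have : (1 : ℝ) ≤ (L : ℝ) ^ (1 - δ) := Real.one_le_rpow hL1 (by linarith)
    nlinarith
  have h6 : ((Z.card : ℝ)) ^ 2 ≤ (1 + 2 * C) * (X * X) := by
    have h7 : L * (C * (L : ℝ) ^ (1 - δ)) = C * (X * X) := by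
      rw [hXX]
      ring
    rw [h7] at h4
    nlinarith
  have hM : (1 : ℝ) ≤ 1 + 2 * C := by linarith
  have h8 : (1 + 2 * C) * (X * X) ≤ ((1 + 2 * C) * X) ^ 2 := by
    have : (0 : ℝ) ≤ X * X := by positivity
    nlinarith [mul_le_mul_of_nonneg_right hM (by positivity : (0 : ℝ) ≤ (1 + 2 * C) * (X * X))]
  exact (pow_le_pow_iff_left₀ (Nat.cast_nonneg _) (by positivity) two_ne_zero).mp (h6.trans h8)

end bd

variable {G : Type} [Group G] {F : Filt G} {N : Type*} [AddCommGroup N]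
  {ρ : G →* AddMonoid.End N} {𝒬 : Subgroup (ℤ → G)}

theorem wt_range {J : ℕ} {B : Fm G N} (h : B.support.card ≤ J) :
    wt F B.support ∈ Fintype.piFinset fun _ : Fin F.s => Finset.range (J + 1) := by
  rw [Fintype.mem_piFinset]
  intro i
  rw [Finset.mem_range, Nat.lt_succ_iff]
  exact cls_card_le.trans h

/-- **Values in a fixed subgroup.** -/
theorem fixpol (hQ : 𝒬 ≤ QQ F 0) (hsg : ∀ g ∈ 𝒬, ∀ h, sg h g ∈ 𝒬) {K : AddSubgroup N}
    (hK : ∀ g, ∀ x ∈ K, ρ g x = x) (w : Fin F.s → ℕ) : ∀ J, ∃ d, ∀ (B : Fm G N) (c : N),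
      Ok 𝒬 J B → wt F B.support = w → (∀ n, c + ev ρ B n ∈ K) →
      Pol d (fun n => c + ev ρ B n) := by
  classical
  induction w using (lx_wf F.s).induction with
  | h w ih =>
    intro J
    have h1 : ∀ w' : Fin F.s → ℕ, ∃ d, lx w' w → ∀ (B : Fm G N) (c : N),
        Ok 𝒬 (2 * J) B → wt F B.support = w' → (∀ n, c + ev ρ B n ∈ K) →
        Pol d (fun n => c + ev ρ B n) := by
      intro w'
      by_cases hw' : lx w' w
      · obtain ⟨d, hd⟩ := ih w' hw' (2 * J)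
        exact ⟨d, fun _ => hd⟩
      · exact ⟨0, fun h => absurd h hw'⟩
    choose d hd using h1
    refine ⟨(Fintype.piFinset fun _ : Fin F.s => Finset.range (2 * J + 1)).sup d + 1,
      fun B c hB hw hV => ?_⟩
    have hdiff : ∀ n, ev ρ B (n + 1) - ev ρ B n ∈ K := by
      intro n
      have := K.sub_mem (hV (n + 1)) (hV n)
      rwa [add_sub_add_left_eq_sub] at this
    have hgoal : Pol ((Fintype.piFinset fun _ : Fin F.s => Finset.range (2 * J + 1)).sup d)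
        (fun n => ev ρ B (n + 1) - ev ρ B n) := by
      by_cases h0 : difB ρ 1 B = 0
      · have e : (fun n => ev ρ B (n + 1) - ev ρ B n) = fun _ => 0 := by
          funext n
          rw [← ev_difB, h0, ev_zero]
        rw [e]
        exact Pol_zero_fun _
      · obtain ⟨p, c', B', hB', hlx, hev⟩ := step ρ hQ hsg hB 1 h0
        have hev' : ∀ n, ev ρ B (n + 1) - ev ρ B n = c' + ev ρ B' n := by
          intro n
          rw [← hev n, hK _ _ (hdiff n)]
        have e : (fun n => ev ρ B (n + 1) - ev ρ B n) = fun n => c' + ev ρ B' n := funext hev'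
        rw [e]
        rw [hw] at hlx
        exact Pol_mono (Finset.le_sup (f := d) (wt_range hB'.2))
          (hd _ hlx B' c' hB' rfl fun n => by rw [← hev']; exact hdiff n)
    intro t
    rw [dd_succ]
    have e : (fun t => c + ev ρ B (t + 1) - (c + ev ρ B t)) =
        fun n => ev ρ B (n + 1) - ev ρ B n := by
      funext t
      rw [add_sub_add_left_eq_sub]
    rw [e]
    exact hgoal t

/-- periodic functions are constant -/
def PerC (ρ : G →* AddMonoid.End N) (𝒬 : Subgroup (ℤ → G)) : Prop :=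
  ∀ (J : ℕ) (B : Fm G N), Ok 𝒬 J B → ∀ h : ℕ, 1 ≤ h → (∀ n, ev ρ B (n + h) = ev ρ B n) →
    ∀ n, ev ρ B n = ev ρ B 0

/-- **Few zeros.** -/
theorem count (hQ : 𝒬 ≤ QQ F 0) (hsg : ∀ g ∈ 𝒬, ∀ h, sg h g ∈ 𝒬) (hper : PerC ρ 𝒬)
    (w : Fin F.s → ℕ) : ∀ J, Bds (fun V : ℤ → N => ∃ (B : Fm G N) (c : N), Ok 𝒬 J B ∧
      wt F B.support = w ∧ (¬ ∀ n, V n = 0) ∧ V = fun n => c + ev ρ B n) := by
  classical
  induction w using (lx_wf F.s).induction with
  | h w ih =>
    intro J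
    let I : Finset (Fin F.s → ℕ) := (Fintype.piFinset fun _ : Fin F.s =>
      Finset.range (2 * J + 1)).filter fun w' => lx w' w
    have hI := Bds_finset I (fun w' (V : ℤ → N) => ∃ (B : Fm G N) (c : N), Ok 𝒬 (2 * J) B ∧
      wt F B.support = w' ∧ (¬ ∀ n, V n = 0) ∧ V = fun n => c + ev ρ B n) (by
        intro w' hw'
        exact ih w' (Finset.mem_filter.mp hw').2 (2 * J))
    -- nonconstant functions
    have h1 : Bds (fun V : ℤ → N => ∃ (B : Fm G N) (c : N), Ok 𝒬 J B ∧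
      wt F B.support = w ∧ (¬ ∀ n, ev ρ B n = ev ρ B 0) ∧ V = fun n => c + ev ρ B n) := by
      apply Bds_diff hI
      rintro V ⟨B, c, hB, hw, hnc, rfl⟩ h hh
      have hnd : ¬ ∀ n, ev ρ B (n + h) - ev ρ B n = 0 := by
        intro h0
        exact hnc (hper J B hB h hh fun n => sub_eq_zero.mp (h0 n))
      have h0 : difB ρ (h : ℤ) B ≠ 0 := by
        intro h0
        apply hnd
        intro n
        rw [← ev_difB, h0, ev_zero]
      obtain ⟨p, c', B', hB', hlx, hev⟩ := step ρ hQ hsg hB (h : ℤ) h0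
      rw [hw] at hlx
      have hinj : ∀ (g : G) (x : N), ρ g x = 0 → x = 0 := by
        intro g x hx
        have h2 : ρ g⁻¹ (ρ g x) = x := by
          show (ρ g⁻¹ * ρ g) x = x
          rw [← map_mul, inv_mul_cancel, map_one]
          rfl
        rw [← h2, hx, map_zero]
      refine ⟨fun n => c' + ev ρ B' n, ⟨wt F B'.support, ?_, B', c', hB', rfl, ?_, rfl⟩, ?_⟩
      · rw [Finset.mem_filter]
        exact ⟨wt_range hB'.2, hlx⟩
      · intro h2
        apply hnd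
        intro n
        apply hinj ((p n)⁻¹)
        rw [hev]
        exact h2 n
      · intro t ht
        show c' + ev ρ B' t = 0
        rw [← hev]
        have ht' : ev ρ B (t + h) - ev ρ B t = 0 := by
          rw [← ht]
          exact (add_sub_add_left_eq_sub _ _ _).symm
        rw [ht', map_zero]
    have h2 : Bds (fun V : ℤ → N => (∀ n, V n = V 0) ∧ ¬ ∀ n, V n = 0) := by
      refine ⟨1, 1, one_pos, one_pos, le_rfl, ?_⟩
      rintro V ⟨hc, hn⟩ L hL Z hZ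
      have hZe : Z = ∅ := by
        by_contra hne
        obtain ⟨t, ht⟩ := Finset.nonempty_iff_ne_empty.mpr hne
        apply hn
        intro n
        rw [hc n, ← hc t, (hZ t ht).2]
      rw [hZe, Finset.card_empty, Nat.cast_zero]
      positivity
    apply Bds_mono (Bds_or h1 h2)
    rintro V ⟨B, c, hB, hw, hn, rfl⟩
    by_cases hc : ∀ n, ev ρ B n = ev ρ B 0
    · right
      refine ⟨fun n => ?_, hn⟩
      show c + ev ρ B n = c + ev ρ B 0
      rw [hc n]
    · exact Or.inl ⟨B, c, hB, hw, hc, rfl⟩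

/-! ### lists -/

variable (ρ)

/-- evaluation of lists -/
def lev (L : List ((ℤ → G) × N)) (n : ℤ) : N := (L.map fun x => ρ (x.1 n) x.2).sum

/-- the family of a list -/
def famL (L : List ((ℤ → G) × N)) : Fm G N :=
  (L.map fun x => Finsupp.single (fun n => x.1 n * (x.1 0)⁻¹) (ρ (x.1 0) x.2)).sum

theorem ev_famL (L : List ((ℤ → G) × N)) (n : ℤ) : ev ρ (famL ρ L) n = lev ρ L n := by
  induction L with
  | nil =>
    unfold famL lev
    exact ev_zero ρ n
  | cons x L ih =>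
    unfold famL lev at ih ⊢
    rw [List.map_cons, List.sum_cons, List.map_cons, List.sum_cons, ev_add, ih, ev_single]
    congr 1
    show (ρ (x.1 n * (x.1 0)⁻¹) * ρ (x.1 0)) x.2 = ρ (x.1 n) x.2
    rw [← map_mul, inv_mul_cancel_right]

theorem famL_supp (hc : ∀ c : G, (fun _ => c) ∈ 𝒬) (L : List ((ℤ → G) × N))
    (hL : ∀ x ∈ L, x.1 ∈ 𝒬) :
    (∀ g ∈ (famL ρ L).support, g ∈ 𝒬 ∧ g 0 = 1) ∧ (famL ρ L).support.card ≤ L.length := by
  classical
  induction L with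
  | nil =>
    unfold famL
    simp
  | cons x L ih =>
    obtain ⟨ih1, ih2⟩ := ih fun y hy => hL y (List.mem_cons_of_mem _ hy)
    unfold famL at ih1 ih2 ⊢
    rw [List.map_cons, List.sum_cons]
    constructor
    · intro g hg
      have h1 := Finsupp.support_add hg
      rw [Finset.mem_union] at h1
      rcases h1 with h1 | h1
      · have h2 := Finsupp.support_single_subset h1
        rw [Finset.mem_singleton] at h2
        subst h2
        constructor
        · have h3 := 𝒬.mul_mem (hL x (List.mem_cons_self)) (𝒬.inv_mem (hc (x.1 0)))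
          exact h3
        · show x.1 0 * (x.1 0)⁻¹ = 1
          rw [mul_inv_cancel]
      · exact ih1 g h1
    · refine (Finset.card_le_card Finsupp.support_add).trans ((Finset.card_union_le _ _).trans ?_)
      have h1 := Finset.card_le_card (Finsupp.support_single_subset
        (a := fun n => x.1 n * (x.1 0)⁻¹) (b := ρ (x.1 0) x.2))
      rw [Finset.card_singleton] at h1
      rw [List.length_cons]
      omega

theorem Ok_famL (hc : ∀ c : G, (fun _ => c) ∈ 𝒬) {J : ℕ} (L : List ((ℤ → G) × N))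
    (hLJ : L.length ≤ J) (hL : ∀ x ∈ L, x.1 ∈ 𝒬) : Ok 𝒬 J ((famL ρ L).erase 1) := by
  classical
  obtain ⟨h1, h2⟩ := famL_supp ρ hc L hL
  refine ⟨?_, ?_⟩
  · intro g hg
    rw [Finsupp.support_erase, Finset.mem_erase] at hg
    exact ⟨(h1 g hg.2).1, (h1 g hg.2).2, hg.1⟩
  · rw [Finsupp.support_erase]
    exact ((Finset.card_le_card (Finset.erase_subset _ _)).trans h2).trans hLJ

variable {ρ}

theorem lev_eq (L : List ((ℤ → G) × N)) (n : ℤ) :
    lev ρ L n = (famL ρ L) 1 + ev ρ ((famL ρ L).erase 1) n := by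
  rw [← ev_famL, ev_erase]

/-- closure of `𝒬` under normalised shifts -/
theorem sg_closed (hc : ∀ c : G, (fun _ => c) ∈ 𝒬) (hs : ∀ g ∈ 𝒬, ∀ h, sh h g ∈ 𝒬) :
    ∀ g ∈ 𝒬, ∀ h, sg h g ∈ 𝒬 := by
  intro g hg h
  rw [sg_eq]
  exact 𝒬.mul_mem (hs g hg h) (𝒬.inv_mem (hc _))

/-- **Sums with values in a fixed subgroup are polynomial.** -/
theorem fix_list (hQ : 𝒬 ≤ QQ F 0) (hc : ∀ c : G, (fun _ => c) ∈ 𝒬)
    (hs : ∀ g ∈ 𝒬, ∀ h, sh h g ∈ 𝒬) {K : AddSubgroup N}
    (hK : ∀ g, ∀ x ∈ K, ρ g x = x) (J : ℕ) :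
    ∃ d, ∀ L : List ((ℤ → G) × N), L.length ≤ J → (∀ x ∈ L, x.1 ∈ 𝒬) →
      (∀ t, lev ρ L t ∈ K) → Pol d (lev ρ L) := by
  classical
  choose d hd using fun w => fixpol (ρ := ρ) hQ (sg_closed hc hs) hK w J
  refine ⟨(Fintype.piFinset fun _ : Fin F.s => Finset.range (J + 1)).sup d,
    fun L hJ hL hKL => ?_⟩
  have e : lev ρ L = fun n => (famL ρ L) 1 + ev ρ ((famL ρ L).erase 1) n := funext (lev_eq L)
  have hOk := Ok_famL ρ hc L hJ hL
  rw [e]
  exact Pol_mono (Finset.le_sup (f := d) (wt_range hOk.2))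
    (hd _ _ _ hOk rfl fun n => by rw [← lev_eq]; exact hKL n)

/-- **Few values.** -/
theorem one_var (hQ : 𝒬 ≤ QQ F 0) (hc : ∀ c : G, (fun _ => c) ∈ 𝒬)
    (hs : ∀ g ∈ 𝒬, ∀ h, sh h g ∈ 𝒬) (hper : PerC ρ 𝒬) (J : ℕ) :
    ∃ C δ : ℝ, 0 < C ∧ 0 < δ ∧ δ ≤ 1 ∧ ∀ L : List ((ℤ → G) × N), L.length ≤ J →
      (∀ x ∈ L, x.1 ∈ 𝒬) → ∀ w : N, (∀ t : ℤ, lev ρ L t = w) ∨
        ∀ M : ℕ, 1 ≤ M → ∀ Z : Finset ℕ, (∀ t ∈ Z, t < M ∧ lev ρ L (t : ℤ) = w) →
          (Z.card : ℝ) ≤ C * (M : ℝ) ^ (1 - δ) := by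
  classical
  have hI := Bds_finset (Fintype.piFinset fun _ : Fin F.s => Finset.range (J + 1))
    (fun w' (V : ℤ → N) => ∃ (B : Fm G N) (c : N), Ok 𝒬 J B ∧
      wt F B.support = w' ∧ (¬ ∀ n, V n = 0) ∧ V = fun n => c + ev ρ B n)
    fun w' _ => count hQ (sg_closed hc hs) hper w' J
  obtain ⟨C, δ, hC, hδ, hδ1, hI⟩ := hI
  refine ⟨C, δ, hC, hδ, hδ1, fun L hJ hL w => ?_⟩
  by_cases h : ∀ t : ℤ, lev ρ L t = w
  · exact Or.inl h
  right
  intro M hM Z hZ
  have hOk := Ok_famL ρ hc L hJ hL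
  apply hI (fun n => ((famL ρ L) 1 - w) + ev ρ ((famL ρ L).erase 1) n)
    ⟨_, wt_range hOk.2, _, _, hOk, rfl, ?_, rfl⟩ M hM Z
  · intro t ht
    refine ⟨(hZ t ht).1, ?_⟩
    have h1 := (hZ t ht).2
    rw [lev_eq] at h1
    show (famL ρ L) 1 - w + ev ρ ((famL ρ L).erase 1) t = 0
    rw [← h1]
    abel
  · intro h0
    apply h
    intro t
    have h1 : (famL ρ L) 1 - w + ev ρ ((famL ρ L).erase 1) t = 0 := h0 t
    rw [lev_eq]
    have h2 : (famL ρ L) 1 + ev ρ ((famL ρ L).erase 1) t =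
        ((famL ρ L) 1 - w + ev ρ ((famL ρ L).erase 1) t) + w := by abel
    rw [h2, h1, zero_add]

end

end Pool.Agent.TH635.NP
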