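import Pool.Agent.TH635.NP.Seq

/-!
# Families of polynomial sequences in a nilpotent group: weights and the PET step
-/

set_option autoImplicit false

namespace Pool.Agent.TH635.NP

noncomputable section

open scoped Classical in
/-- classes at level `l` -/
def cls {G : Type} [Group G] (F : Filt G) (l : ℕ) (S : Finset (ℤ → G)) :
    Finset ((ℤ → G) ⧸ PP F (l + 1)) :=
  (S.filter fun g => g ∈ PP F l ∧ g ∉ PP F (l + 1)).image QuotientGroup.mk

/-- weights -/
def wt {G : Type} [Group G] (F : Filt G) (S : Finset (ℤ → G)) : Fin F.s → ℕ :=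
  fun l => (cls F l S).card

variable {G : Type} [Group G] {F : Filt G}

theorem mem_cls {l : ℕ} {S : Finset (ℤ → G)} {c : (ℤ → G) ⧸ PP F (l + 1)} :
    c ∈ cls F l S ↔ ∃ g ∈ S, (g ∈ PP F l ∧ g ∉ PP F (l + 1)) ∧ QuotientGroup.mk g = c := by
  classical
  unfold cls
  rw [Finset.mem_image]
  simp only [Finset.mem_filter]
  constructor
  · rintro ⟨g, ⟨h1, h2⟩, h3⟩
    exact ⟨g, h1, h2, h3⟩
  · rintro ⟨g, h1, h2, h3⟩
    exact ⟨g, ⟨h1, h2⟩, h3⟩

theorem cls_card_le {l : ℕ} {S : Finset (ℤ → G)} : (cls F l S).card ≤ S.card := by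
  classical
  unfold cls
  exact Finset.card_image_le.trans (Finset.card_filter_le _ _)

/-- the order on weights -/
def lx {s : ℕ} (w' w : Fin s → ℕ) : Prop :=
  Pi.Lex (ι := Fin s) (β := fun _ => ℕ) (· < ·) (fun {_} => (· < ·)) w' w

theorem lx_wf (s : ℕ) : WellFounded (lx (s := s)) := Pi.Lex.wellFounded _ fun _ => wellFounded_lt

theorem lx_of {s : ℕ} {w' w : Fin s → ℕ} (i : Fin s) (h : ∀ l < i, w' l ≤ w l) (hi : w' i < w i) :
    lx w' w := by
  classical
  have hex : ((Finset.univ : Finset (Fin s)).filter fun l => l ≤ i ∧ w' l ≠ w l).Nonempty :=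
    ⟨i, Finset.mem_filter.mpr ⟨Finset.mem_univ _, le_rfl, hi.ne⟩⟩
  set j := ((Finset.univ : Finset (Fin s)).filter fun l => l ≤ i ∧ w' l ≠ w l).min' hex with hj
  have h1 := Finset.min'_mem _ hex
  rw [← hj, Finset.mem_filter] at h1
  refine ⟨j, fun l hl => ?_, ?_⟩
  · by_contra h2
    have h3 : j ≤ l := Finset.min'_le _ l (by
      rw [Finset.mem_filter]
      exact ⟨Finset.mem_univ l, hl.le.trans h1.2.1, h2⟩)
    exact absurd hl (not_lt.mpr h3)
  · rcases lt_or_eq_of_le h1.2.1 with h2 | h2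
    · exact lt_of_le_of_ne (h j h2) h1.2.2
    · show w' j < w j
      rw [h2]
      exact hi

theorem sg_cls {l : ℕ} {S : Finset (ℤ → G)} (hS : ∀ g ∈ S, g ∈ PP F 0) (h : ℤ) {g : ℤ → G}
    (hg : g ∈ S ∨ ∃ g' ∈ S, sg h g' = g) (hl : g ∈ PP F l) (hl' : g ∉ PP F (l + 1)) :
    (QuotientGroup.mk g : (ℤ → G) ⧸ PP F (l + 1)) ∈ cls F l S := by
  rw [mem_cls]
  rcases hg with hg | ⟨g', hg', rfl⟩
  · exact ⟨g, hg, ⟨hl, hl'⟩, rfl⟩
  · rw [sg_level (hS g' hg')] at hl hl'
    exact ⟨g', hg', ⟨hl, hl'⟩, QuotientGroup.eq.mpr (sg_class hl h)⟩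

/-- **The weight drops.** -/
theorem drop {S S' : Finset (ℤ → G)} (hS : ∀ g ∈ S, g ∈ PP F 0) {h : ℤ}
    (hS' : ∀ g ∈ S', (g ∈ S ∨ ∃ g' ∈ S, sg h g' = g) ∧ g ≠ 1) (hne : S'.Nonempty) :
    ∃ p ∈ S', ∀ S'' : Finset (ℤ → G), (∀ g ∈ S'', g ≠ 1 ∧ ∃ g' ∈ S', p⁻¹ * g' = g) →
      lx (wt F S'') (wt F S) := by
  classical
  have hP0 : ∀ g ∈ S', g ∈ PP F 0 := by
    intro g hg
    rcases (hS' g hg).1 with h1 | ⟨g', hg', rfl⟩
    · exact hS g h1
    · exact sg_mem (hS g' hg') h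
  set lev : (ℤ → G) → ℕ := fun g => Nat.findGreatest (fun l => g ∈ PP F l) F.s with hlev
  have hspec : ∀ g ∈ S', g ∈ PP F (lev g) := fun g hg =>
    Nat.findGreatest_spec (P := fun l => g ∈ PP F l) (Nat.zero_le _) (hP0 g hg)
  have hlt : ∀ g ∈ S', lev g < F.s := by
    intro g hg
    rcases Nat.lt_or_ge (lev g) F.s with h1 | h1
    · exact h1
    · exfalso
      apply (hS' g hg).2
      exact PP_top (PP_le h1 (hspec g hg))
  obtain ⟨p, hp, hpmax⟩ := S'.exists_max_image lev hne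
  have hnot : ∀ g ∈ S', g ∉ PP F (lev p + 1) := by
    intro g hg h1
    have h2 : lev p + 1 ≤ lev g := Nat.le_findGreatest (by have := hlt p hp; omega) h1
    have h3 := hpmax g hg
    omega
  refine ⟨p, hp, fun S'' hS'' => ?_⟩
  apply lx_of ⟨lev p, hlt p hp⟩
  · intro l hl
    have hl' : (l : ℕ) < lev p := hl
    apply Finset.card_le_card
    intro c hc
    rw [mem_cls] at hc
    obtain ⟨g, hg, ⟨hg1, hg2⟩, rfl⟩ := hc
    obtain ⟨_, g', hg', rfl⟩ := hS'' g hg
    have hpl : p ∈ PP F ((l : ℕ) + 1) := PP_le (by omega) (hspec p hp)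
    have e1 : (QuotientGroup.mk (p⁻¹ * g') : (ℤ → G) ⧸ PP F ((l : ℕ) + 1)) =
        QuotientGroup.mk g' := by
      rw [QuotientGroup.eq, mul_inv_rev, inv_inv]
      exact PP_conj hpl (hP0 g' hg').1
    rw [e1]
    apply sg_cls hS h (hS' g' hg').1
    · have e2 : g' = p * (p⁻¹ * g') := by rw [mul_inv_cancel_left]
      rw [e2]
      exact (PP F l).mul_mem (PP_le (Nat.le_succ _) hpl) hg1
    · intro h3
      exact hg2 ((PP F (l + 1)).mul_mem ((PP F (l + 1)).inv_mem hpl) h3)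
  · show (cls F (lev p) S'').card < (cls F (lev p) S).card
    have hpS : (QuotientGroup.mk p : (ℤ → G) ⧸ PP F (lev p + 1)) ∈ cls F (lev p) S :=
      sg_cls hS h (hS' p hp).1 (hspec p hp) (hnot p hp)
    have hsub : cls F (lev p) S'' ⊆ ((cls F (lev p) S).erase (QuotientGroup.mk p)).image
        (fun c => p⁻¹ • c) := by
      intro c hc
      rw [mem_cls] at hc
      obtain ⟨g, hg, ⟨hg1, hg2⟩, rfl⟩ := hc
      obtain ⟨_, g', hg', rfl⟩ := hS'' g hg
      rw [Finset.mem_image]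
      refine ⟨QuotientGroup.mk g', ?_, rfl⟩
      rw [Finset.mem_erase]
      constructor
      · intro h3
        apply hg2
        rw [eq_comm, QuotientGroup.eq] at h3
        exact h3
      · apply sg_cls hS h (hS' g' hg').1 _ (hnot g' hg')
        have e2 : g' = p * (p⁻¹ * g') := by rw [mul_inv_cancel_left]
        rw [e2]
        exact (PP F (lev p)).mul_mem (hspec p hp) hg1
    calc (cls F (lev p) S'').card ≤ _ := Finset.card_le_card hsub
      _ ≤ ((cls F (lev p) S).erase (QuotientGroup.mk p)).card := Finset.card_image_le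
      _ < (cls F (lev p) S).card := Finset.card_erase_lt_of_mem hpS

/-- families -/
abbrev Fm (G N : Type*) [Zero N] := (ℤ → G) →₀ N

variable {N : Type*} [AddCommGroup N] (ρ : G →* AddMonoid.End N)

/-- evaluation -/
def ev (B : Fm G N) (n : ℤ) : N := B.sum fun g w => ρ (g n) w

theorem ev_add (B B' : Fm G N) (n : ℤ) : ev ρ (B + B') n = ev ρ B n + ev ρ B' n := by
  classical
  unfold ev
  exact Finsupp.sum_add_index' (fun g => map_zero _) (fun g a b => map_add _ a b)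

theorem ev_single (g : ℤ → G) (w : N) (n : ℤ) : ev ρ (Finsupp.single g w) n = ρ (g n) w := by
  unfold ev
  exact Finsupp.sum_single_index (map_zero _)

theorem ev_zero (n : ℤ) : ev ρ (0 : Fm G N) n = 0 := by
  unfold ev
  exact Finsupp.sum_zero_index

/-- evaluation as a homomorphism -/
def evH (n : ℤ) : Fm G N →+ N where
  toFun := fun B => ev ρ B n
  map_zero' := ev_zero ρ n
  map_add' := fun B B' => ev_add ρ B B' n

theorem ev_sub (B B' : Fm G N) (n : ℤ) : ev ρ (B - B') n = ev ρ B n - ev ρ B' n :=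
  map_sub (evH ρ n) B B'

theorem ev_finsum (B : Fm G N) (Ψ : (ℤ → G) → N → Fm G N) (n : ℤ) :
    ev ρ (B.sum Ψ) n = B.sum fun g w => ev ρ (Ψ g w) n := by
  unfold Finsupp.sum
  exact map_sum (evH ρ n) _ _

/-- shifted family -/
def shB (h : ℤ) (B : Fm G N) : Fm G N := B.sum fun g w => Finsupp.single (sg h g) (ρ (g h) w)

theorem ev_shB (h : ℤ) (B : Fm G N) (n : ℤ) : ev ρ (shB ρ h B) n = ev ρ B (n + h) := by
  unfold shB
  rw [ev_finsum]
  show B.sum _ = B.sum _
  apply Finset.sum_congr rfl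
  intro g _
  show ev ρ (Finsupp.single (sg h g) ((ρ (g h)) (B g))) n = ρ (g (n + h)) (B g)
  rw [ev_single]
  show (ρ (sg h g n) * ρ (g h)) (B g) = ρ (g (n + h)) (B g)
  rw [← map_mul]
  congr 2
  unfold sg
  rw [inv_mul_cancel_right]

/-- difference -/
def difB (h : ℤ) (B : Fm G N) : Fm G N := shB ρ h B - B

theorem ev_difB (h : ℤ) (B : Fm G N) (n : ℤ) :
    ev ρ (difB ρ h B) n = ev ρ B (n + h) - ev ρ B n := by
  unfold difB
  rw [ev_sub, ev_shB]

theorem shB_apply (h : ℤ) (B : Fm G N) (p : ℤ → G) [DecidableEq (ℤ → G)] :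
    shB ρ h B p = ∑ g ∈ B.support, if sg h g = p then ρ (g h) (B g) else 0 := by
  unfold shB Finsupp.sum
  rw [Finsupp.finsetSum_apply]
  apply Finset.sum_congr rfl
  intro g _
  rw [Finsupp.single_apply]

theorem shB_support {h : ℤ} {B : Fm G N} {p : ℤ → G} (hp : p ∈ (shB ρ h B).support) :
    ∃ g ∈ B.support, sg h g = p := by
  classical
  by_contra hcon
  push Not at hcon
  rw [Finsupp.mem_support_iff, shB_apply] at hp
  apply hp
  apply Finset.sum_eq_zero
  intro g hg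
  rw [if_neg (hcon g hg)]

theorem difB_support {h : ℤ} {B : Fm G N} (hB : ∀ g ∈ B.support, g 0 = 1 ∧ g ≠ 1) :
    ∀ p ∈ (difB ρ h B).support, (p ∈ B.support ∨ ∃ g ∈ B.support, sg h g = p) ∧ p ≠ 1 := by
  classical
  intro p hp
  have h1 : p ∈ B.support ∨ ∃ g ∈ B.support, sg h g = p := by
    by_contra hcon
    push Not at hcon
    rw [Finsupp.mem_support_iff] at hp
    apply hp
    unfold difB
    rw [Finsupp.sub_apply, Finsupp.notMem_support_iff.mp hcon.1, sub_zero]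
    by_contra h2
    obtain ⟨g, hg, hg'⟩ := shB_support ρ (Finsupp.mem_support_iff.mpr h2)
    exact hcon.2 g hg hg'
  refine ⟨h1, ?_⟩
  rintro rfl
  rcases h1 with h1 | ⟨g, hg, hg'⟩
  · exact (hB 1 h1).2 rfl
  · exact (hB g hg).2 ((sg_one_iff (hB g hg).1 h).mp hg')

theorem difB_card {h : ℤ} {B : Fm G N} : (difB ρ h B).support.card ≤ 2 * B.support.card := by
  classical
  have h1 : (difB ρ h B).support ⊆ B.support ∪ B.support.image (sg h) := by
    intro p hp
    rw [Finset.mem_union, Finset.mem_image]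
    by_contra hcon
    push Not at hcon
    rw [Finsupp.mem_support_iff] at hp
    apply hp
    unfold difB
    rw [Finsupp.sub_apply, Finsupp.notMem_support_iff.mp hcon.1, sub_zero]
    by_contra h2
    obtain ⟨g, hg, hg'⟩ := shB_support ρ (Finsupp.mem_support_iff.mpr h2)
    exact hcon.2 g hg hg'
  refine (Finset.card_le_card h1).trans ((Finset.card_union_le _ _).trans ?_)
  have := Finset.card_image_le (s := B.support) (f := sg h)
  omega

/-- translated family -/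
def traB (p : ℤ → G) (B : Fm G N) : Fm G N := B.mapDomain fun g => p⁻¹ * g

theorem ev_traB (p : ℤ → G) (B : Fm G N) (n : ℤ) :
    ev ρ (traB p B) n = ρ ((p n)⁻¹) (ev ρ B n) := by
  unfold traB ev
  rw [Finsupp.sum_mapDomain_index (fun g => map_zero _) (fun g a b => map_add _ a b)]
  unfold Finsupp.sum
  rw [map_sum]
  apply Finset.sum_congr rfl
  intro g _
  show ρ ((p⁻¹ * g) n) (B g) = (ρ ((p n)⁻¹) * ρ (g n)) (B g)
  rw [← map_mul]
  rfl

theorem traB_support {p : ℤ → G} {B : Fm G N} {q : ℤ → G} (hq : q ∈ (traB p B).support) :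
    ∃ g ∈ B.support, p⁻¹ * g = q := by
  classical
  have h1 := Finsupp.mapDomain_support hq
  rw [Finset.mem_image] at h1
  exact h1

theorem traB_card {p : ℤ → G} {B : Fm G N} : (traB p B).support.card ≤ B.support.card := by
  classical
  exact (Finset.card_le_card Finsupp.mapDomain_support).trans Finset.card_image_le

theorem ev_erase (B : Fm G N) (n : ℤ) : ev ρ B n = B 1 + ev ρ (B.erase 1) n := by
  classical
  conv_lhs => rw [← Finsupp.single_add_erase 1 B]
  rw [ev_add, ev_single, Pi.one_apply, map_one]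
  rfl

/-- admissible families -/
def Ok (𝒬 : Subgroup (ℤ → G)) (J : ℕ) (B : Fm G N) : Prop :=
  (∀ g ∈ B.support, g ∈ 𝒬 ∧ g 0 = 1 ∧ g ≠ 1) ∧ B.support.card ≤ J

/-- **The PET step.** -/
theorem step {𝒬 : Subgroup (ℤ → G)} (hQ : 𝒬 ≤ QQ F 0) (hsg : ∀ g ∈ 𝒬, ∀ h, sg h g ∈ 𝒬)
    {J : ℕ} {B : Fm G N} (hB : Ok 𝒬 J B) (h : ℤ) (hne : difB ρ h B ≠ 0) :
    ∃ (p : ℤ → G) (c : N) (B' : Fm G N), Ok 𝒬 (2 * J) B' ∧ lx (wt F B'.support) (wt F B.support) ∧
      ∀ n, ρ ((p n)⁻¹) (ev ρ B (n + h) - ev ρ B n) = c + ev ρ B' n := by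
  classical
  have hP : ∀ g ∈ B.support, g ∈ PP F 0 := fun g hg => ⟨hQ (hB.1 g hg).1, (hB.1 g hg).2.1⟩
  have hsup := difB_support ρ (h := h) (B := B) fun g hg => (hB.1 g hg).2
  obtain ⟨p, hp, hdrop⟩ := drop hP hsup (Finsupp.support_nonempty_iff.mpr hne)
  have hQd : ∀ g ∈ (difB ρ h B).support, g ∈ 𝒬 ∧ g 0 = 1 := by
    intro g hg
    rcases (hsup g hg).1 with h1 | ⟨g', hg', rfl⟩
    · exact ⟨(hB.1 g h1).1, (hB.1 g h1).2.1⟩
    · exact ⟨hsg _ (hB.1 g' hg').1 h, sg_norm h g'⟩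
  have hsup' : ∀ g ∈ ((traB p (difB ρ h B)).erase 1).support,
      g ≠ 1 ∧ ∃ g' ∈ (difB ρ h B).support, p⁻¹ * g' = g := by
    intro g hg
    rw [Finsupp.support_erase, Finset.mem_erase] at hg
    exact ⟨hg.1, traB_support hg.2⟩
  refine ⟨p, traB p (difB ρ h B) 1, (traB p (difB ρ h B)).erase 1, ⟨?_, ?_⟩, hdrop _ hsup', ?_⟩
  · intro g hg
    obtain ⟨h1, g', hg', rfl⟩ := hsup' g hg
    refine ⟨𝒬.mul_mem (𝒬.inv_mem (hQd p hp).1) (hQd g' hg').1, ?_, h1⟩
    rw [Pi.mul_apply, Pi.inv_apply, (hQd p hp).2, (hQd g' hg').2, inv_one, one_mul]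
  · rw [Finsupp.support_erase]
    refine (Finset.card_le_card (Finset.erase_subset _ _)).trans (traB_card.trans ?_)
    exact (difB_card ρ).trans (Nat.mul_le_mul_left 2 hB.2)
  · intro n
    rw [← ev_difB, ← ev_traB, ← ev_erase]

end

end Pool.Agent.TH635.NP
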