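import Pool.Agent.TH635.NP.Tor
import Pool.Agent.TH635.AA.Cnv

/-!
# Nilpotent groups of affine maps acting on the characters
-/

set_option autoImplicit false
set_option linter.unusedSectionVars false

open Filter Topology MeasureTheory
open scoped ComplexConjugate

namespace Pool.Agent.TH635.NP

open Pool.Agent.TH784.AA
open Pool.Agent.TH635.AA (AltB subz subz_nz conv_gen)
open Pool.Agent.W742.CU (IsPoly)
open Pool.Agent.W761.Box (bxc Cv)

noncomputable section

variable {X : Type} [CommGroup X] [TopologicalSpace X]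

/-- characters modulo constants -/
def chH (X : Type) [CommGroup X] [TopologicalSpace X] :
    Additive (X →ₜ* Circle) →+ BB X ⧸ KK X :=
  (QuotientAddGroup.mk' (KK X)).comp
    (AddMonoidHom.mk' (fun χ : Additive (X →ₜ* Circle) =>
      (Additive.ofMul fun x => χ.toMul x : BB X)) fun _ _ => rfl)

/-- the group of characters modulo constants -/
def NN (X : Type) [CommGroup X] [TopologicalSpace X] : AddSubgroup (BB X ⧸ KK X) := (chH X).range

theorem mk_mem_NN {f : BB X} (h : IsAC f.toMul) : QuotientAddGroup.mk' (KK X) f ∈ NN X := by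
  obtain ⟨χ, c, hχ⟩ := h
  refine ⟨Additive.ofMul χ, ?_⟩
  show QuotientAddGroup.mk' (KK X) (Additive.ofMul fun x => χ x : BB X) =
    QuotientAddGroup.mk' (KK X) f
  rw [← sub_eq_zero, ← map_sub, QuotientAddGroup.mk'_apply, QuotientAddGroup.eq_zero_iff]
  intro x y
  show χ x / f.toMul x = χ y / f.toMul y
  rw [hχ x, hχ y, div_mul_cancel_right, div_mul_cancel_right]

theorem NN_rep {b : BB X ⧸ KK X} (h : b ∈ NN X) :
    ∃ f : BB X, IsAC f.toMul ∧ QuotientAddGroup.mk' (KK X) f = b := by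
  obtain ⟨χ, rfl⟩ := h
  exact ⟨Additive.ofMul fun x => χ.toMul x, ⟨χ.toMul, 1, fun x => (one_mul _).symm⟩, rfl⟩

theorem qbk_NN {φ : X → X} (hφ : IsAff φ) {b : BB X ⧸ KK X} (h : b ∈ NN X) : qbk φ b ∈ NN X := by
  obtain ⟨f, hf, rfl⟩ := NN_rep h
  rw [qbk_mk]
  exact mk_mem_NN (hf.comp hφ)

instance NN_fg [h : AddGroup.FG (Additive (X →ₜ* Circle))] : AddGroup.FG (NN X) :=
  AddGroup.fg_range (chH X)

variable {Γ : Subgroup (Equiv.Perm X)}

/-- the action on functions -/
def rhoB (Γ : Subgroup (Equiv.Perm X)) : Γ →* AddMonoid.End (BB X) where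
  toFun := fun g => pbk ((g⁻¹ : Γ) : Equiv.Perm X)
  map_one' := by
    refine DFunLike.ext _ _ fun f => ?_
    show pbk (((1 : Γ)⁻¹ : Γ) : Equiv.Perm X) f = f
    rw [inv_one]
    rfl
  map_mul' := by
    intro g h
    refine DFunLike.ext _ _ fun f => ?_
    show pbk (((g * h)⁻¹ : Γ) : Equiv.Perm X) f =
      pbk ((g⁻¹ : Γ) : Equiv.Perm X) (pbk ((h⁻¹ : Γ) : Equiv.Perm X) f)
    rw [mul_inv_rev]
    rfl

theorem rhoB_inv (g : Γ) (f : BB X) : rhoB Γ g⁻¹ f = pbk (g : Equiv.Perm X) f := by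
  show pbk (((g⁻¹)⁻¹ : Γ) : Equiv.Perm X) f = _
  rw [inv_inv]

/-- the action on characters modulo constants -/
def rhoN (hΓ : ∀ g ∈ Γ, IsAff (g : X → X)) : Γ →* AddMonoid.End (NN X) where
  toFun := fun g => ((qbk ((g⁻¹ : Γ) : Equiv.Perm X)).comp (NN X).subtype).codRestrict (NN X)
    fun b => qbk_NN (hΓ _ (g⁻¹).2) b.2
  map_one' := by
    refine DFunLike.ext _ _ fun b => Subtype.ext ?_
    obtain ⟨f, hf, hfb⟩ := NN_rep b.2
    show qbk (((1 : Γ)⁻¹ : Γ) : Equiv.Perm X) b.1 = b.1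
    rw [← hfb, qbk_mk, inv_one]
    rfl
  map_mul' := by
    intro g h
    refine DFunLike.ext _ _ fun b => Subtype.ext ?_
    obtain ⟨f, hf, hfb⟩ := NN_rep b.2
    show qbk (((g * h)⁻¹ : Γ) : Equiv.Perm X) b.1 =
      qbk ((g⁻¹ : Γ) : Equiv.Perm X) (qbk ((h⁻¹ : Γ) : Equiv.Perm X) b.1)
    rw [← hfb, qbk_mk, qbk_mk, qbk_mk, mul_inv_rev]
    rfl

theorem rhoN_inv (hΓ : ∀ g ∈ Γ, IsAff (g : X → X)) (g : Γ) (b : NN X) :
    ((rhoN hΓ g⁻¹ b : NN X) : BB X ⧸ KK X) = qbk (g : Equiv.Perm X) b.1 := by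
  show qbk (((g⁻¹)⁻¹ : Γ) : Equiv.Perm X) b.1 = _
  rw [inv_inv]

theorem SG_inv {G : Type} [Group G] {k : ℕ} {𝒬 : Subgroup (ℤ → G)} {g : (Fin k → ℤ) → G}
    (h : SG 𝒬 g) : SG 𝒬 (fun m => (g m)⁻¹) := fun m l => 𝒬.inv_mem (h m l)

theorem CL_sum {G : Type} [Group G] {N : Type*} [AddCommGroup N] {k : ℕ}
    {ρ : G →* AddMonoid.End N} {𝒬 : Subgroup (ℤ → G)} {J : Type} [Fintype J]
    {g : J → (Fin k → ℤ) → G} (hg : ∀ j, SG 𝒬 (g j)) (w : J → N) :
    CL ρ 𝒬 (Fintype.card J) (fun m => ∑ j, ρ (g j m) (w j)) := by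
  classical
  refine ⟨(Finset.univ : Finset J).toList.map fun j => (g j, w j), ?_, ?_, ?_⟩
  · rw [List.length_map, Finset.length_toList]
    exact le_of_eq (Finset.card_univ)
  · intro x hx
    obtain ⟨j, _, rfl⟩ := List.mem_map.mp hx
    exact hg j
  · intro m
    rw [List.map_map]
    show ∑ j, ρ (g j m) (w j) = _
    exact (Finset.sum_map_toList Finset.univ fun j => ρ (g j m) (w j)).symm

theorem AltB_of_inj {k : ℕ} {N : AddSubgroup (BB X ⧸ KK X)} {l : Fin k}
    {V : (Fin k → ℤ) → N}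
    (h : (∀ (m : Fin k → ℤ) (t : ℤ), V (Function.update m l t) = V m) ∨
      FewB l (fun n => V (nz n))) : AltB l (fun n => ((V n : N) : BB X ⧸ KK X)) := by
  rcases h with h | ⟨G, C, δ, hC, hδ, h1, h2⟩
  · left
    intro m t
    show ((V (Function.update m l t) : N) : BB X ⧸ KK X) = V m
    rw [h]
  · right
    refine ⟨G, C, δ, hC, hδ, fun c N' hN' => ?_, h2⟩
    by_cases hc : ∃ c' : N, (c' : BB X ⧸ KK X) = c
    · obtain ⟨c', rfl⟩ := hc
      exact (cnt_mono fun n hn => ⟨hn.1, Subtype.ext hn.2⟩).trans (h1 c' N' hN')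
    · refine (cnt_mono fun n hn => ?_).trans (h1 0 N' hN')
      exact absurd ⟨_, hn.2⟩ hc

variable [IsTopologicalGroup X] [CompactSpace X]
  [MeasurableSpace X] [BorelSpace X] {μ : Measure X} [IsProbabilityMeasure μ]
  [μ.IsMulLeftInvariant]

/-- the maps `T_1^{p_1(m)} ⋯ T_d^{p_d(m)}` -/
def SJ {d k : ℕ} (T : Fin d → Γ) (p : Fin d → MvPolynomial (Fin k) ℤ) (m : Fin k → ℤ) : Γ :=
  (List.ofFn fun i => T i ^ MvPolynomial.eval m (p i)).prod

/-- **Convergence for characters.** -/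
theorem conv_chi [Group.IsNilpotent Γ] [AddGroup.FG (Additive (X →ₜ* Circle))]
    (hΓ : ∀ g ∈ Γ, IsAff (g : X → X)) {d k : ℕ} {J : Type} [Fintype J] (T : Fin d → Γ)
    (P : Fin d → J → MvPolynomial (Fin k) ℤ) (χ : J → X →ₜ* Circle) :
    Cv μ (fun j (m : Fin k → ℕ) => ((SJ T (fun i => P i j) (nz m) : Equiv.Perm X) : X → X))
      (fun j x => (χ j x : ℂ)) := by
  classical
  set w : J → BB X := fun j => Additive.ofMul fun x => χ j x with hw
  have hwac : ∀ j, IsAC (w j).toMul := fun j => ⟨χ j, 1, fun x => (one_mul _).symm⟩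
  set S : J → (Fin k → ℤ) → Γ := fun j => SJ T (fun i => P i j) with hS
  set F : (Fin k → ℤ) → BB X := fun m => ∑ j, pbk (S j m : Equiv.Perm X) (w j) with hF
  have hFac : ∀ m, IsAC (F m).toMul := by
    intro m
    have key : ∀ s : Finset J, IsAC (∑ j ∈ s, pbk (S j m : Equiv.Perm X) (w j)).toMul := by
      intro s
      induction s using Finset.induction_on with
      | empty => exact IsAC.one
      | insert i s hi ih =>
        rw [Finset.sum_insert hi]
        exact ((hwac i).comp (hΓ _ (S i m).2)).mul ih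
    exact key Finset.univ
  -- the degree bound
  set D : ℕ := (∑ i, ∑ j, (P i j).totalDegree) + 1 with hD
  have hDij : ∀ i j, (P i j).totalDegree ≤ D := by
    intro i j
    have h1 : (P i j).totalDegree ≤ ∑ i, ∑ j, (P i j).totalDegree := by
      refine le_trans ?_ (Finset.single_le_sum (f := fun i => ∑ j, (P i j).totalDegree)
        (fun _ _ => Nat.zero_le _) (Finset.mem_univ i))
      exact Finset.single_le_sum (f := fun j => (P i j).totalDegree)
        (fun _ _ => Nat.zero_le _) (Finset.mem_univ j)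
    omega
  obtain ⟨𝒬, q, hq, hQ, hc, hs, hper, hcl⟩ := toral_class (ρ := rhoN hΓ) (k := k) (d := d)
    (F := lcsFilt Γ D (by omega)) (lcsFilt_top Γ D (by omega))
  have key : ∀ᵐ x ∂μ, ∀ r : Fin k → ℕ, (∀ j, r j < q) → ∃ L : ℂ,
      Tendsto (fun N => bxc k N (sub r q fun n => fb (F (nz n)) x)) atTop (𝓝 L) := by
    rw [ae_all_iff]
    intro r
    by_cases hr : ∀ j, r j < q
    swap
    · exact Eventually.of_forall fun x h => absurd h hr
    have hSG : ∀ j, SG 𝒬 (fun m : Fin k → ℤ => S j (fun l => (r l : ℤ) + q * m l)) := fun j =>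
      hcl T (fun i => P i j) (fun i => hDij i j) (fun l => (r l : ℤ))
    have h1 := conv_gen (μ := μ) (subz r q F) (fun n => hFac _) (fun l => by
        let V : (Fin k → ℤ) → NN X := fun m => ∑ j,
          rhoN hΓ (S j (fun l => (r l : ℤ) + q * m l))⁻¹ ⟨_, mk_mem_NN (hwac j)⟩
        have hVcl : CL (rhoN hΓ) 𝒬 (Fintype.card J) V := CL_sum (fun j => SG_inv (hSG j)) _
        have h2 := dich_CL hQ hc hs hper hVcl l
        have h3 := AltB_of_inj h2
        have e : (fun n => ((V n : NN X) : BB X ⧸ KK X)) =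
            fun n => QuotientAddGroup.mk' (KK X) (subz r q F n) := by
          funext n
          show ((NN X).subtype (V n)) = QuotientAddGroup.mk' (KK X)
            (∑ j, pbk (S j (fun l => (r l : ℤ) + q * n l) : Equiv.Perm X) (w j))
          rw [map_sum, map_sum]
          exact Finset.sum_congr rfl fun j _ =>
            (rhoN_inv hΓ (S j _) ⟨_, mk_mem_NN (hwac j)⟩).trans (qbk_mk _ _)
        rw [e] at h3
        exact h3) (fun E hE => by
        have hFcl : CL (rhoB Γ) 𝒬 (Fintype.card J) (subz r q F) := by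
          have h2 := CL_sum (ρ := rhoB Γ) (fun j => SG_inv (hSG j)) w
          have e : (fun m => ∑ j, rhoB Γ (S j (fun l => (r l : ℤ) + q * m l))⁻¹ (w j)) =
              subz r q F := by
            funext m
            exact Finset.sum_congr rfl fun j _ => rhoB_inv _ _
          rw [e] at h2
          exact h2
        exact fix_CL hQ hc hs (K := KK X) (fun g x hx => pbk_KK _ hx)
          (CL_sub hFcl (CL_mix hc hFcl E)) hE)
    filter_upwards [h1] with x hx _
    obtain ⟨L, hL⟩ := hx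
    refine ⟨L, hL.congr fun N => ?_⟩
    congr 1
  filter_upwards [key] with x hx
  obtain ⟨L, hL⟩ := conv_of_residues hq hx
  refine ⟨L, hL.congr fun N => ?_⟩
  congr 1
  funext m
  have key2 : ∀ s : Finset J, fb (∑ j ∈ s, pbk (S j (nz m) : Equiv.Perm X) (w j)) x =
      ∏ j ∈ s, (χ j ((S j (nz m) : Equiv.Perm X) x) : ℂ) := by
    intro s
    induction s using Finset.induction_on with
    | empty =>
      rw [Finset.sum_empty, Finset.prod_empty]
      exact Circle.coe_one
    | insert i s hi ih =>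
      rw [Finset.prod_insert hi, ← ih, Finset.sum_insert hi, fb_add]
      rfl
  exact key2 Finset.univ

end

end Pool.Agent.TH635.NP
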