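import Pool.Agent.TH635.NP.Gen
import Pool.Agent.TH635.NP.Rep

/-!
# Assembly: nilpotent groups of affine maps of tori
-/

set_option autoImplicit false
set_option linter.unusedSectionVars false

open Filter Topology MeasureTheory
open scoped ENNReal

noncomputable section

namespace Pool.Agent.TH635.NP

open Pool.Agent.TH784.AA (IsAff nz IsAff.symm IsAff.comp IsAff.id IsAff.mp)
open Pool.Agent.TH635.AA (RiemInt)
open Pool.Agent.W761.Box (bxc bx Cv Good1 dz orb)

/-- ordered products of powers of measure preserving maps -/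
theorem orb_ofFn {X : Type*} : ∀ (k : ℕ) (U : Fin k → Equiv.Perm X) (m : Fin k → ℕ) (x : X),
    orb k (fun l => (U l : X → X)) m x = (List.ofFn fun l => U l ^ m l).prod x := by
  intro k
  induction k with
  | zero =>
    intro U m x
    rw [List.ofFn_zero, List.prod_nil]
    rfl
  | succ k ih =>
    intro U m x
    rw [List.ofFn_succ, List.prod_cons, Equiv.Perm.mul_apply]
    have h1 := ih (Fin.tail U) (Fin.tail m) x
    show (U 0 : X → X)^[m 0] (orb k (fun l => (Fin.tail U l : X → X)) (Fin.tail m) x) = _
    rw [h1, Equiv.Perm.iterate_eq_pow]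
    rfl

theorem good_ord {X : Type*} [MeasurableSpace X] {μ : Measure X} [IsProbabilityMeasure μ] {k : ℕ}
    {U : Fin k → Equiv.Perm X} {W : Equiv.Perm X} (hU : ∀ l, MeasurePreserving (U l) μ μ)
    (hW : MeasurePreserving W μ μ) :
    Good1 μ (fun m => ((List.ofFn fun l => U l ^ m l).prod * W : Equiv.Perm X)) := by
  rintro G hG ⟨C, hC⟩
  have h1 := dz k (fun l => (U l : X → X)) hU G hG C hC
  filter_upwards [hW.quasiMeasurePreserving.ae h1] with x hx
  obtain ⟨L, hL⟩ := hx
  refine ⟨L, hL.congr fun N => ?_⟩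
  congr 1
  funext m
  rw [orb_ofFn, Equiv.Perm.mul_apply]

/-- compact groups with a finitely generated character group are metrizable -/
theorem metr_of_fg {X : Type*} [CommGroup X] [TopologicalSpace X] [IsTopologicalGroup X]
    [CompactSpace X] [T2Space X] (h : Group.FG (X →ₜ* Circle)) :
    TopologicalSpace.MetrizableSpace X := by
  obtain ⟨S, hS, hfin⟩ := Group.fg_iff.mp h
  have hcnt : Countable S := hfin.countable.to_subtype
  have hcont : Continuous fun (x : X) (χ : S) => (χ : X →ₜ* Circle) x :=
    continuous_pi fun χ => χ.1.continuous_toFun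
  have hinj : Function.Injective fun (x : X) (χ : S) => (χ : X →ₜ* Circle) x := by
    intro x y hxy
    by_contra hne
    obtain ⟨χ, hχ⟩ := Pool.LatH472.chars (x * y⁻¹) (fun h => hne (mul_inv_eq_one.1 h))
    apply hχ
    have key : ∀ χ : X →ₜ* Circle, χ x = χ y := by
      intro χ
      have hmem : χ ∈ Subgroup.closure S := by
        rw [hS]
        exact Subgroup.mem_top _
      induction hmem using Subgroup.closure_induction with
      | mem χ hχ => exact congrFun hxy ⟨χ, hχ⟩
      | one => rfl
      | mul a b _ _ ha hb =>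
        show a x * b x = a y * b y
        rw [ha, hb]
      | inv a _ ha =>
        show (a x)⁻¹ = (a y)⁻¹
        rw [ha]
    rw [map_mul, map_inv, key χ, mul_inv_cancel]
  exact (hcont.isClosedEmbedding hinj).isEmbedding.metrizableSpace

theorem isAff_closure {X : Type*} [CommGroup X] [TopologicalSpace X] [IsTopologicalGroup X]
    [CompactSpace X] [T2Space X] {d : ℕ} {T : Fin d → Equiv.Perm X}
    (hT : ∀ i, IsAff (T i : X → X)) :
    ∀ g ∈ Subgroup.closure (Set.range T), IsAff (g : X → X) := by
  intro g hg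
  induction hg using Subgroup.closure_induction with
  | mem x hx =>
    obtain ⟨i, rfl⟩ := hx
    exact hT i
  | one => exact IsAff.id
  | mul x y _ _ hx hy => exact hx.comp hy
  | inv x _ hx => exact hx.symm

variable {X : Type} [CommGroup X] [TopologicalSpace X] [IsTopologicalGroup X] [CompactSpace X]
  [T2Space X] [MeasurableSpace X] [BorelSpace X] {μ : Measure X} [μ.IsHaarMeasure]
  [IsProbabilityMeasure μ] {d k n : ℕ}

/-- **Convergence for nilpotent groups of affine maps of tori.** -/
theorem nil_top (hX : Group.FG (X →ₜ* Circle)) {T : Fin d → Equiv.Perm X}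
    (hT : ∀ i, IsAff (T i : X → X)) (hnil : Group.IsNilpotent (Subgroup.closure (Set.range T)))
    (P : Fin d → Fin n → MvPolynomial (Fin k) ℤ)
    {f : Fin n → X → ℂ} (hf : ∀ j, MemLp (f j) ∞ μ)
    (hF : ∀ j, RiemInt μ (f j) ∨ (∀ᵐ x ∂μ, ContinuousAt (f j) x) ∨
      (∃ (U : Fin k → Equiv.Perm X) (W : Equiv.Perm X), (∀ l, MeasurePreserving (U l) μ μ) ∧
        MeasurePreserving W μ μ ∧ ∀ m : Fin k → ℕ, (List.ofFn fun i : Fin d =>
          T i ^ (MvPolynomial.eval (fun l => ((m l : ℕ) : ℤ)) (P i j))).prod =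
          (List.ofFn fun l => U l ^ m l).prod * W) ∨
      Good1 μ (fun m x => (List.ofFn fun i : Fin d =>
        T i ^ (MvPolynomial.eval (fun l => ((m l : ℕ) : ℤ)) (P i j))).prod x)) :
    Cv μ (fun j m x => (List.ofFn fun i : Fin d =>
      T i ^ (MvPolynomial.eval (fun l => ((m l : ℕ) : ℤ)) (P i j))).prod x) f := by
  have hΓ := isAff_closure hT
  let T' : Fin d → Subgroup.closure (Set.range T) := fun i =>
    ⟨T i, Subgroup.subset_closure ⟨i, rfl⟩⟩
  have hTT : ∀ (j : Fin n) (m : Fin k → ℕ), ((SJ T' (fun i => P i j) (nz m) :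
      Subgroup.closure (Set.range T)) : Equiv.Perm X) = (List.ofFn fun i : Fin d =>
        T i ^ (MvPolynomial.eval (fun l => ((m l : ℕ) : ℤ)) (P i j))).prod := by
    intro j m
    unfold SJ
    have h1 := map_list_prod (Subgroup.closure (Set.range T)).subtype
      (List.ofFn fun i => T' i ^ MvPolynomial.eval (nz m) (P i j))
    rw [List.map_ofFn] at h1
    exact h1
  have hmp : ∀ (j : Fin n) (m : Fin k → ℕ), MeasurePreserving (fun x : X =>
      (List.ofFn fun i : Fin d =>
        T i ^ (MvPolynomial.eval (fun l => ((m l : ℕ) : ℤ)) (P i j))).prod x) μ μ := by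
    intro j m
    have h1 : IsAff (((SJ T' (fun i => P i j) (nz m) :
      Subgroup.closure (Set.range T)) : Equiv.Perm X) : X → X) := hΓ _ (SJ T' _ _).2
    rw [hTT] at h1
    exact h1.mp
  have hfg : AddGroup.FG (Additive (X →ₜ* Circle)) := inferInstance
  have hmet := metr_of_fg hX
  refine top_gen hmp (fun χ => ?_) hf fun j => ?_
  · have h1 := conv_chi (μ := μ) hΓ T' P χ
    simp only [hTT] at h1
    exact h1
  · rcases hF j with h | h | ⟨U, W, hU, hW, h⟩ | h
    · exact Or.inl h
    · exact Or.inr (Or.inl ⟨hmet, h⟩)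
    · right
      right
      have h1 := good_ord hU hW
      simp only [← h] at h1
      exact h1
    · exact Or.inr (Or.inr h)

end Pool.Agent.TH635.NP
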