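import Pool.Agent.TH635.AA.Dns
import Pool.Agent.TH635.FB.Fin

/-!
# From characters to continuous functions and to products with Riemann integrable functions:
general families of measure preserving maps (adapted from `Pool/Agent/TH635/AA/Dns.lean`)
-/

set_option autoImplicit false
set_option linter.unusedSectionVars false

open Filter Topology MeasureTheory
open scoped ComplexConjugate ENNReal

namespace Pool.Agent.TH635.NP

open Pool.Agent.TH784.AA (TP TP_dense chi_mem BM_of_TP)
open Pool.Agent.TH635.AA
open Pool.Agent.TH635.FB (clampC clampC_cont clampC_bd clampC_eq riem_complex)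
open Pool.Agent.W761.Box (bxc bx BM Cv Good1 Cv_add Cv_smul Cv_zero)

noncomputable section

universe u

variable {X : Type u} [CommGroup X] [TopologicalSpace X] [IsTopologicalGroup X] [CompactSpace X]
  [T2Space X] [MeasurableSpace X] [BorelSpace X] {μ : Measure X} [μ.IsHaarMeasure]
  [IsProbabilityMeasure μ]

variable {k : ℕ} {J : Type} [Fintype J] [DecidableEq J] {g : J → (Fin k → ℕ) → X → X}

/-- continuous functions -/
theorem cont_gen (hmp : ∀ j m, MeasurePreserving (g j m) μ μ)
    (hchi : ∀ χ : J → X →ₜ* Circle, Cv μ g (fun j x => (χ j x : ℂ)))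
    {F : J → X → ℂ} (hF : ∀ j, Continuous (F j)) : Cv μ g F := by
  classical
  have key : ∀ (B : Finset J) (F : J → X → ℂ), (∀ j ∈ B, Continuous (F j)) →
      (∀ j ∉ B, ∃ χ : X →ₜ* Circle, F j = fun x => (χ x : ℂ)) → Cv μ g F := by
    intro B
    induction B using Finset.induction_on with
    | empty =>
      intro F _ h2
      choose χ hχ using fun j => h2 j (Finset.notMem_empty j)
      have h3 := hchi χ
      have e : F = fun j x => (χ j x : ℂ) := funext hχ
      rw [e]
      exact h3
    | insert j B hj ih =>
      intro F h1 h2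
      have hBd : ∀ l, Bd (F l) := by
        intro l
        by_cases hl : l ∈ insert j B
        · exact Bd_cont (h1 l hl)
        · obtain ⟨χ, e⟩ := h2 l hl
          rw [e]
          exact (BM_of_TP (chi_mem χ)).2
      have hc : Continuous (F j) := h1 j (Finset.mem_insert_self j B)
      have hmain : Cv μ g (Function.update F j (F j)) := by
        refine Cv_closed_sup hBd (hmp j) ?_
        intro ε hε
        obtain ⟨f', hf', _, hff'⟩ := TP_dense (⟨F j, hc⟩ : C(X, ℂ)) hε
        refine ⟨f', hff', ?_⟩
        refine Submodule.span_induction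
          (p := fun (f' : X → ℂ) _ => Cv μ g (Function.update F j f')) ?_ ?_ ?_ ?_ hf'
        · rintro _ ⟨χ, rfl⟩
          apply ih
          · intro l hl
            have hlj : l ≠ j := fun e => hj (e ▸ hl)
            rw [Function.update_of_ne hlj]
            exact h1 l (Finset.mem_insert_of_mem hl)
          · intro l hl
            by_cases hlj : l = j
            · subst hlj
              exact ⟨χ, by rw [Function.update_self]⟩
            · rw [Function.update_of_ne hlj]
              apply h2
              intro hmem'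
              rcases Finset.mem_insert.mp hmem' with h5 | h5
              · exact hlj h5
              · exact hl h5
        · exact Cv_zero
        · rintro g₁ g₂ _ _ c₁ c₂
          exact Cv_add c₁ c₂
        · rintro c g₁ _ c₁
          exact Cv_smul c c₁
      rwa [Function.update_eq_self] at hmain
  exact key Finset.univ F (fun j _ => hF j) fun j hj => absurd (Finset.mem_univ j) hj

/-- one continuous real function -/
theorem Cr_gen (hmp : ∀ j m, MeasurePreserving (g j m) μ μ)
    (hchi : ∀ χ : J → X →ₜ* Circle, Cv μ g (fun j x => (χ j x : ℂ)))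
    (j : J) {K : X → ℝ} (hK : Continuous K) : Cr μ (g j) K := by
  have hc : ∀ l, Continuous (Function.update (fun (_ : J) (_ : X) => (1 : ℂ)) j
      (fun x => (K x : ℂ)) l) := by
    intro l
    by_cases hl : l = j
    · subst hl
      rw [Function.update_self]
      exact Complex.continuous_ofReal.comp hK
    · rw [Function.update_of_ne hl]
      exact continuous_const
  have h1 := cont_gen hmp hchi hc
  filter_upwards [h1] with x hx
  obtain ⟨L, hL⟩ := hx
  refine ⟨L.re, ((Complex.continuous_re.tendsto _).comp hL).congr fun N => ?_⟩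
  have e0 : ∀ m, ∏ l, (Function.update (fun (_ : J) (_ : X) => (1 : ℂ)) j
      (fun x => (K x : ℂ))) l (g l m x) = (K (g j m x) : ℂ) := by
    intro m
    rw [Pool.Agent.W761.Box.prod_update, Finset.prod_const_one, mul_one]
  simp only [Function.comp_apply, e0, bxc, bx]
  have e : (∏ j, (N j : ℂ))⁻¹ = (((∏ j, (N j : ℝ))⁻¹ : ℝ) : ℂ) := by
    push_cast
    rfl
  rw [e, ← Complex.ofReal_sum, ← Complex.ofReal_mul, Complex.ofReal_re]

/-- **Convergence: slots with Riemann integrable functions, or good slots.** -/
theorem slots_gen (hmp : ∀ j m, MeasurePreserving (g j m) μ μ)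
    (hchi : ∀ χ : J → X →ₜ* Circle, Cv μ g (fun j x => (χ j x : ℂ)))
    {F : J → X → ℂ} (hb : ∀ j, Bd (F j))
    (hF : ∀ j, RiemInt μ (F j) ∨ (Measurable (F j) ∧ Good1 μ (g j))) : Cv μ g F := by
  classical
  have key : ∀ S : Finset J, ∀ F : J → X → ℂ, (∀ j, Bd (F j)) →
      (∀ j ∈ S, RiemInt μ (F j) ∨ (Measurable (F j) ∧ Good1 μ (g j))) →
      (∀ j, j ∉ S → Continuous (F j)) → Cv μ g F := by
    intro S
    induction S using Finset.induction_on with
    | empty =>
      intro F _ _ h
      exact cont_gen hmp hchi fun j => h j (Finset.notMem_empty j)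
    | insert j S hj ih =>
      intro F hb hgd hc
      have hup : ∀ u : X → ℂ, Continuous u → Cv μ g (Function.update F j u) := by
        intro u hu
        apply ih
        · intro l
          by_cases hl : l = j
          · subst hl
            rw [Function.update_self]
            exact Bd_cont hu
          · rw [Function.update_of_ne hl]
            exact hb l
        · intro l hl
          have hlj : l ≠ j := fun h => hj (h ▸ hl)
          rw [Function.update_of_ne hlj]
          exact hgd l (Finset.mem_insert_of_mem hl)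
        · intro l hl
          by_cases hlj : l = j
          · subst hlj
            rw [Function.update_self]
            exact hu
          · rw [Function.update_of_ne hlj]
            exact hc l (by
              rw [Finset.mem_insert]
              tauto)
      have hmain : Cv μ g (Function.update F j (F j)) := by
        rcases hgd j (Finset.mem_insert_self j S) with h | ⟨hm, hs⟩
        · refine Cv_closed' hb (hmp j) ?_
          intro ε hε
          obtain ⟨u, K, hu, hK, huK, hKi⟩ := h ε hε
          have hKabs : Continuous fun x => max (K x) 0 := hK.max continuous_const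
          have hint : ∫ x, max (K x) 0 ∂μ ≤ ε := by
            refine le_trans (le_of_eq ?_) hKi
            apply integral_congr_ae
            filter_upwards [huK] with x hx
            exact max_eq_left ((norm_nonneg _).trans hx)
          have h5 : ∀ᵐ x ∂μ, ‖F j x - u x‖ ≤ max (K x) 0 := by
            filter_upwards [huK] with x hx
            exact hx.trans (le_max_left _ _)
          have h6 : Cr μ (g j) (fun x => max (K x) 0) := Cr_gen hmp hchi j hKabs
          exact ⟨u, fun x => max (K x) 0, hKabs.measurable, bdr_cont hKabs,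
            fun x => le_max_right _ _, h5, hint, h6, hup u hu⟩
        · refine Cv_closed1 hb (hmp j) hs ⟨hm, hb j⟩ ?_
          intro ε hε
          have hint : Integrable (F j) μ := by
            obtain ⟨C, hC⟩ := hb j
            exact Integrable.of_bound hm.aestronglyMeasurable C (Eventually.of_forall hC)
          have hreg : μ.Regular := inferInstance
          obtain ⟨p, hp, _⟩ := hint.exists_boundedContinuous_integral_sub_le hε
          exact ⟨p, BM_cont p.continuous, hp, hup p p.continuous⟩
      rwa [Function.update_eq_self] at hmain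
  exact key Finset.univ F hb (fun j _ => hF j) fun j hj => absurd (Finset.mem_univ j) hj

omit [T2Space X] [CompactSpace X] [IsTopologicalGroup X] [CommGroup X] [Fintype J]
  [DecidableEq J] [μ.IsHaarMeasure] in
theorem riemInt_congr {f g : X → ℂ} (h : f =ᵐ[μ] g) (hf : RiemInt μ f) : RiemInt μ g := by
  intro ε hε
  obtain ⟨u, K, hu, hK, h1, h2⟩ := hf ε hε
  refine ⟨u, K, hu, hK, ?_, h2⟩
  filter_upwards [h1, h] with x hx hx'
  rwa [← hx']

/-- essentially bounded functions -/
theorem top_gen (hmp : ∀ j m, MeasurePreserving (g j m) μ μ)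
    (hchi : ∀ χ : J → X →ₜ* Circle, Cv μ g (fun j x => (χ j x : ℂ)))
    {f : J → X → ℂ} (hf : ∀ j, MemLp (f j) ∞ μ)
    (hF : ∀ j, RiemInt μ (f j) ∨
      (TopologicalSpace.MetrizableSpace X ∧ ∀ᵐ x ∂μ, ContinuousAt (f j) x) ∨
      Good1 μ (g j)) :
    Cv μ g f := by
  have hbd : ∀ j, ∃ C : ℝ, 0 ≤ C ∧ ∀ᵐ x ∂μ, ‖f j x‖ ≤ C := by
    intro j
    refine ⟨(eLpNormEssSup (f j) μ).toReal, ENNReal.toReal_nonneg, ?_⟩
    have h1 := (hf j).eLpNorm_lt_top
    rw [eLpNorm_exponent_top] at h1
    filter_upwards [ae_le_eLpNormEssSup (f := f j) (μ := μ)] with x hx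
    have h2 := ENNReal.toReal_mono h1.ne hx
    rwa [toReal_enorm] at h2
  choose C hC0 hC using hbd
  have hcl : ∀ j, f j =ᵐ[μ] fun x => clampC (C j) (f j x) := by
    intro j
    filter_upwards [hC j] with x hx
    exact (clampC_eq hx).symm
  have hrm : ∀ j, ∃ g : X → ℂ, BM g ∧ f j =ᵐ[μ] g := by
    intro j
    have hm := (hf j).1.stronglyMeasurable_mk.measurable
    refine ⟨fun x => clampC (C j) ((hf j).1.mk (f j) x),
      ⟨(clampC_cont _).measurable.comp hm, _, fun x => clampC_bd (hC0 j) _⟩, ?_⟩
    filter_upwards [hC j, (hf j).1.ae_eq_mk] with x hx hx'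
    rw [← hx', clampC_eq hx]
  have hrep : ∀ j, ∃ F : X → ℂ, Bd F ∧ f j =ᵐ[μ] F ∧
      (RiemInt μ F ∨ (Measurable F ∧ Good1 μ (g j))) := by
    intro j
    rcases hF j with h | ⟨hm, h⟩ | h
    · exact ⟨fun x => clampC (C j) (f j x), ⟨_, fun x => clampC_bd (hC0 j) _⟩, hcl j,
        Or.inl (riemInt_congr (hcl j) h)⟩
    · refine ⟨fun x => clampC (C j) (f j x), ⟨_, fun x => clampC_bd (hC0 j) _⟩, hcl j,
        Or.inl ?_⟩
      intro ε hε
      let _ : MetricSpace X := TopologicalSpace.metrizableSpaceMetric X
      have hcont : ∀ᵐ x ∂μ, ContinuousAt (fun x => clampC (C j) (f j x)) x := by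
        filter_upwards [h] with x hx
        exact (clampC_cont _).continuousAt.comp hx
      obtain ⟨u, K, hu, hK, h1, h2⟩ := riem_complex μ (fun x => clampC_bd (hC0 j) (f j x)) hcont hε
      exact ⟨u, K, hu, hK, Eventually.of_forall h1, h2⟩
    · obtain ⟨g, hg, hfg⟩ := hrm j
      exact ⟨g, hg.2, hfg, Or.inr ⟨hg.1, h⟩⟩
  choose F hF1 hF2 hF3 using hrep
  have hmain := slots_gen hmp hchi hF1 hF3
  have heq : ∀ᵐ x ∂μ, ∀ (j : J) (m : Fin k → ℕ), f j (g j m x) = F j (g j m x) := by
    rw [ae_all_iff]
    intro j
    rw [ae_all_iff]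
    intro m
    exact (hmp j m).quasiMeasurePreserving.ae (hF2 j)
  filter_upwards [hmain, heq] with x hx hx'
  obtain ⟨L, hL⟩ := hx
  refine ⟨L, hL.congr fun N => ?_⟩
  congr 1
  funext m
  exact Finset.prod_congr rfl fun j _ => (hx' j m).symm

end

end Pool.Agent.TH635.NP
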