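import Pool.Agent.TH635.NP.Cnt
import Pool.Agent.TH635.AA.Fix

/-!
# Several variables: dichotomy and polynomiality for sums over polynomial sequences in a
nilpotent group
-/

set_option autoImplicit false

namespace Pool.Agent.TH635.NP

open Pool.Agent.TH784.AA (cnt vol bxs mem_bxs cnt_mono cnt_eq_sum sum_fiber card_bxs vol_nonneg
  FewB nz mix)
open Pool.Agent.TH635.AA (cnt_fiber mx mx_insert mx_update_left nz_update mx_nz_update rpow_neg_le
  Pol Sep sep_isPoly)
open Pool.Agent.W742.CU (IsPoly)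

noncomputable section

section abs

variable {k : ℕ} {N : Type*} [AddCommGroup N]

/-- uniform bounds for slices -/
def Slb (𝒱 : ((Fin k → ℤ) → N) → Prop) : Prop :=
  ∃ C δ : ℝ, 0 < C ∧ 0 < δ ∧ δ ≤ 1 ∧ ∀ V : (Fin k → ℤ) → N, 𝒱 V →
      ∀ (m : Fin k → ℤ) (l : Fin k) (w : N), (∀ t : ℤ, V (Function.update m l t) = w) ∨
        ∀ M : ℕ, 1 ≤ M → ∀ Z : Finset ℕ, (∀ t ∈ Z, t < M ∧ V (Function.update m l (t : ℤ)) = w) →
          (Z.card : ℝ) ≤ C * (M : ℝ) ^ (1 - δ)

/-- zeros of functions with uniform slice bounds -/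
theorem zeros {𝒱 : ((Fin k → ℤ) → N) → Prop} (H : Slb 𝒱) (s : Finset (Fin k)) :
    ∃ C δ : ℝ, 0 < C ∧ 0 < δ ∧ ∀ V : (Fin k → ℤ) → N, 𝒱 V → ∀ x : Fin k → ℤ,
      (∀ y : Fin k → ℤ, V (mx s x y) = 0) ∨ ∀ N' : Fin k → ℕ, (∀ j, 1 ≤ N' j) →
        cnt N' (fun n => V (mx s x (nz n)) = 0) ≤ C * (vol N' * ∑ j, (N' j : ℝ) ^ (-δ)) := by
  classical
  induction s using Finset.induction_on with
  | empty =>
    refine ⟨1, 1, one_pos, one_pos, fun V _ x => ?_⟩
    have e : ∀ y, mx ∅ x y = x := by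
      intro y
      funext j
      simp [mx]
    by_cases h : V x = 0
    · left
      intro y
      rw [e, h]
    · right
      intro N' hN
      have h1 : cnt N' (fun n => V (mx ∅ x (nz n)) = 0) = 0 := by
        rw [cnt_eq_sum]
        apply Finset.sum_eq_zero
        intro n _
        rw [if_neg]
        rw [e]
        exact h
      rw [h1, one_mul]
      exact mul_nonneg (vol_nonneg _) (Finset.sum_nonneg fun j _ => by positivity)
  | insert l s hl ih =>
    obtain ⟨C₁, δ₁, hC₁, hδ₁, h1⟩ := ih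
    obtain ⟨C₂, δ₂, hC₂, hδ₂, hδ₂1, h2⟩ := H
    refine ⟨C₁ + C₂, min δ₁ δ₂, by positivity, lt_min hδ₁ hδ₂, fun V hV x => ?_⟩
    by_cases hall : ∀ (y : Fin k → ℤ) (t : ℤ), V (Function.update (mx s x y) l t) = 0
    · left
      intro y
      rw [mx_insert hl]
      exact hall _ _
    push Not at hall
    obtain ⟨y₀, t₀, hyt⟩ := hall
    right
    intro N' hN
    have h3 : cnt N' (fun n => V (Function.update (mx s x (nz n)) l t₀) = 0) ≤
        C₁ * (vol N' * ∑ j, (N' j : ℝ) ^ (-δ₁)) := by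
      rcases h1 V hV (Function.update x l t₀) with h | h
      · exfalso
        apply hyt
        rw [← mx_update_left hl]
        exact h y₀
      · have h4 := h N' hN
        simp only [mx_update_left hl] at h4
        exact h4
    have h4 : cnt N' (fun n => V (Function.update (mx s x (nz n)) l t₀) ≠ 0 ∧
        V (mx (insert l s) x (nz n)) = 0) ≤ C₂ * (vol N' * (N' l : ℝ) ^ (-δ₂)) := by
      apply cnt_fiber hN l
      intro n Z hZ
      rcases Z.eq_empty_or_nonempty with hZe | ⟨t₁, ht₁⟩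
      · rw [hZe, Finset.card_empty, Nat.cast_zero]
        positivity
      have h5 := (hZ t₁ ht₁).2.1
      rw [mx_nz_update hl] at h5
      rcases h2 V hV (mx s x (nz n)) l 0 with h | h
      · exact absurd (h t₀) h5
      · apply h (N' l) (hN l) Z
        intro t ht
        refine ⟨(hZ t ht).1, ?_⟩
        have h6 := (hZ t ht).2.2
        rw [mx_insert hl, mx_nz_update hl, nz_update, Function.update_self] at h6
        exact h6
    have h5 : cnt N' (fun n => V (mx (insert l s) x (nz n)) = 0) ≤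
        cnt N' (fun n => V (Function.update (mx s x (nz n)) l t₀) = 0) +
        cnt N' (fun n => V (Function.update (mx s x (nz n)) l t₀) ≠ 0 ∧
          V (mx (insert l s) x (nz n)) = 0) := by
      rw [cnt_eq_sum, cnt_eq_sum, cnt_eq_sum, ← Finset.sum_add_distrib]
      apply Finset.sum_le_sum
      intro n _
      by_cases ha : V (mx (insert l s) x (nz n)) = 0
      · by_cases hb : V (Function.update (mx s x (nz n)) l t₀) = 0
        · rw [if_pos ha, if_pos hb]
          have : (0 : ℝ) ≤ if V (Function.update (mx s x (nz n)) l t₀) ≠ 0 ∧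
            V (mx (insert l s) x (nz n)) = 0 then 1 else 0 := by split_ifs <;> norm_num
          linarith
        · rw [if_pos ha, if_neg hb, if_pos ⟨hb, ha⟩]
          norm_num
      · rw [if_neg ha]
        have h6 : (0 : ℝ) ≤ if V (Function.update (mx s x (nz n)) l t₀) = 0 then 1 else 0 := by
          split_ifs <;> norm_num
        have h7 : (0 : ℝ) ≤ if V (Function.update (mx s x (nz n)) l t₀) ≠ 0 ∧
            V (mx (insert l s) x (nz n)) = 0 then 1 else 0 := by split_ifs <;> norm_num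
        linarith
    refine h5.trans ((add_le_add h3 h4).trans ?_)
    have hv := vol_nonneg N'
    have h6 : ∑ j, (N' j : ℝ) ^ (-δ₁) ≤ ∑ j, (N' j : ℝ) ^ (-min δ₁ δ₂) :=
      Finset.sum_le_sum fun j _ => rpow_neg_le (hN j) (min_le_left _ _)
    have h7 : (N' l : ℝ) ^ (-δ₂) ≤ ∑ j, (N' j : ℝ) ^ (-min δ₁ δ₂) :=
      (rpow_neg_le (hN l) (min_le_right _ _)).trans
        (Finset.single_le_sum (f := fun j => (N' j : ℝ) ^ (-min δ₁ δ₂))
          (fun j _ => by positivity) (Finset.mem_univ l))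
    rw [add_mul]
    exact add_le_add
      (mul_le_mul_of_nonneg_left (mul_le_mul_of_nonneg_left h6 hv) hC₁.le)
      (mul_le_mul_of_nonneg_left (mul_le_mul_of_nonneg_left h7 hv) hC₂.le)

/-- **The dichotomy.** -/
theorem dich {𝒱 : ((Fin k → ℤ) → N) → Prop} (H : Slb 𝒱) {V : (Fin k → ℤ) → N} (hV : 𝒱 V)
    (l : Fin k) (hW : ∀ s s' : ℤ, 𝒱 (fun m => V (Function.update m l s) -
      V (Function.update m l s'))) :
    (∀ (m : Fin k → ℤ) (t : ℤ), V (Function.update m l t) = V m) ∨
      FewB l (fun n => V (nz n)) := by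
  classical
  by_cases hall : ∀ (m : Fin k → ℤ) (t : ℤ), V (Function.update m l t) = V m
  · exact Or.inl hall
  right
  push Not at hall
  obtain ⟨m₀, t₀, hmt⟩ := hall
  obtain ⟨C₁, δ₁, hC₁, hδ₁, h1⟩ := zeros H (Finset.univ : Finset (Fin k))
  obtain ⟨C₂, δ₂, hC₂, hδ₂, hδ₂1, h2⟩ := H
  have hW := hW t₀ (m₀ l)
  have emx : ∀ y : Fin k → ℤ, mx Finset.univ 0 y = y := by
    intro y
    funext j
    simp [mx]
  refine ⟨{n | V (Function.update (nz n) l t₀) - V (Function.update (nz n) l (m₀ l)) ≠ 0},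
    C₁ + C₂, min δ₁ δ₂, by positivity, lt_min hδ₁ hδ₂, ?_, ?_⟩
  · intro c N' hN
    have h3 : cnt N' (fun n => n ∈ {n | V (Function.update (nz n) l t₀) -
        V (Function.update (nz n) l (m₀ l)) ≠ 0} ∧ V (nz n) = c) ≤
        C₂ * (vol N' * (N' l : ℝ) ^ (-δ₂)) := by
      apply cnt_fiber hN l
      intro n Z hZ
      rcases Z.eq_empty_or_nonempty with hZe | ⟨t₁, ht₁⟩
      · rw [hZe, Finset.card_empty, Nat.cast_zero]
        positivity
      have h5 : V (Function.update (nz (Function.update n l t₁)) l t₀) -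
        V (Function.update (nz (Function.update n l t₁)) l (m₀ l)) ≠ 0 := (hZ t₁ ht₁).2.1
      rw [nz_update, Function.update_idem, Function.update_idem] at h5
      rcases h2 V hV (nz n) l c with h | h
      · rw [h, h, sub_self] at h5
        exact absurd rfl h5
      · apply h (N' l) (hN l) Z
        intro t ht
        refine ⟨(hZ t ht).1, ?_⟩
        rw [← nz_update]
        exact (hZ t ht).2.2
    refine h3.trans ?_
    have hv := vol_nonneg N'
    have h4 := rpow_neg_le (hN l) (min_le_right δ₁ δ₂)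
    have h5 : (0 : ℝ) ≤ vol N' * (N' l : ℝ) ^ (-min δ₁ δ₂) := by positivity
    calc C₂ * (vol N' * (N' l : ℝ) ^ (-δ₂)) ≤ C₂ * (vol N' * (N' l : ℝ) ^ (-min δ₁ δ₂)) :=
          mul_le_mul_of_nonneg_left (mul_le_mul_of_nonneg_left h4 hv) hC₂.le
      _ ≤ (C₁ + C₂) * (vol N' * (N' l : ℝ) ^ (-min δ₁ δ₂)) :=
          mul_le_mul_of_nonneg_right (by linarith) h5
  · intro N' hN
    have h3 : cnt N' (fun n => n ∉ {n | V (Function.update (nz n) l t₀) -
        V (Function.update (nz n) l (m₀ l)) ≠ 0}) ≤ C₁ * (vol N' * ∑ j, (N' j : ℝ) ^ (-δ₁)) := by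
      rcases h1 _ hW 0 with h | h
      · exfalso
        have h4 := h m₀
        rw [emx, Function.update_eq_self] at h4
        exact hmt (sub_eq_zero.mp h4)
      · refine (cnt_mono fun n hn => ?_).trans (h N' hN)
        rw [emx]
        by_contra hcon
        exact hn hcon
    refine h3.trans ?_
    have hv := vol_nonneg N'
    have h4 : ∑ j, (N' j : ℝ) ^ (-δ₁) ≤ ∑ j, (N' j : ℝ) ^ (-min δ₁ δ₂) :=
      Finset.sum_le_sum fun j _ => rpow_neg_le (hN j) (min_le_left _ _)
    have h5 : (0 : ℝ) ≤ vol N' * ∑ j, (N' j : ℝ) ^ (-min δ₁ δ₂) :=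
      mul_nonneg hv (Finset.sum_nonneg fun j _ => by positivity)
    calc C₁ * (vol N' * ∑ j, (N' j : ℝ) ^ (-δ₁)) ≤
          C₁ * (vol N' * ∑ j, (N' j : ℝ) ^ (-min δ₁ δ₂)) :=
          mul_le_mul_of_nonneg_left (mul_le_mul_of_nonneg_left h4 hv) hC₁.le
      _ ≤ (C₁ + C₂) * (vol N' * ∑ j, (N' j : ℝ) ^ (-min δ₁ δ₂)) :=
          mul_le_mul_of_nonneg_right (by linarith) h5

end abs

section cls

variable {G : Type} [Group G] {F : Filt G} {N : Type*} [AddCommGroup N] {k : ℕ}

/-- all slices are in `𝒬` -/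
def SG (𝒬 : Subgroup (ℤ → G)) (g : (Fin k → ℤ) → G) : Prop :=
  ∀ (m : Fin k → ℤ) (l : Fin k), (fun t => g (Function.update m l t)) ∈ 𝒬

theorem SG_freeze {𝒬 : Subgroup (ℤ → G)} (hc : ∀ c : G, (fun _ => c) ∈ 𝒬)
    {g : (Fin k → ℤ) → G} (h : SG 𝒬 g) (l : Fin k) (s : ℤ) :
    SG 𝒬 (fun m => g (Function.update m l s)) := by
  intro m l'
  by_cases hl : l' = l
  · subst hl
    have e : (fun t => g (Function.update (Function.update m l' t) l' s)) =
        fun _ => g (Function.update m l' s) := by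
      funext t
      rw [Function.update_idem]
    rw [e]
    exact hc _
  · have e : (fun t => g (Function.update (Function.update m l' t) l s)) =
        fun t => g (Function.update (Function.update m l s) l' t) := by
      funext t
      rw [Function.update_comm hl]
    rw [e]
    exact h _ _

theorem SG_mix {𝒬 : Subgroup (ℤ → G)} (hc : ∀ c : G, (fun _ => c) ∈ 𝒬)
    {g : (Fin k → ℤ) → G} (h : SG 𝒬 g) (E : Finset (Fin k)) :
    SG 𝒬 (fun m => g (mix E m 0)) := by
  intro m l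
  by_cases hl : l ∈ E
  · have e : (fun t => g (mix E (Function.update m l t) 0)) =
        fun t => g (Function.update (mix E m 0) l t) := by
      funext t
      congr 1
      funext j
      unfold mix
      by_cases hj : j = l
      · subst hj
        rw [if_pos hl, Function.update_self, Function.update_self]
      · rw [Function.update_of_ne hj, Function.update_of_ne hj]
    rw [e]
    exact h _ _
  · have e : (fun t => g (mix E (Function.update m l t) 0)) = fun _ => g (mix E m 0) := by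
      funext t
      congr 1
      funext j
      unfold mix
      by_cases hj : j ∈ E
      · have : j ≠ l := fun h => hl (h ▸ hj)
        rw [if_pos hj, if_pos hj, Function.update_of_ne this]
      · rw [if_neg hj, if_neg hj]
    rw [e]
    exact hc _

variable (ρ : G →* AddMonoid.End N)

/-- sums over polynomial sequences of several variables -/
def CL (𝒬 : Subgroup (ℤ → G)) (J : ℕ) (V : (Fin k → ℤ) → N) : Prop :=
  ∃ L : List (((Fin k → ℤ) → G) × N), L.length ≤ J ∧ (∀ x ∈ L, SG 𝒬 x.1) ∧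
    ∀ m, V m = (L.map fun x => ρ (x.1 m) x.2).sum

variable {ρ} {𝒬 : Subgroup (ℤ → G)}

theorem CL_slice {J : ℕ} {V : (Fin k → ℤ) → N} (h : CL ρ 𝒬 J V) (m : Fin k → ℤ) (l : Fin k) :
    ∃ L : List ((ℤ → G) × N), L.length ≤ J ∧ (∀ x ∈ L, x.1 ∈ 𝒬) ∧
      ∀ t, V (Function.update m l t) = lev ρ L t := by
  obtain ⟨L, hJ, hL, hV⟩ := h
  refine ⟨L.map fun x => (fun t => x.1 (Function.update m l t), x.2), by rwa [List.length_map],
    ?_, ?_⟩
  · intro y hy
    obtain ⟨x, hx, rfl⟩ := List.mem_map.mp hy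
    exact hL x hx m l
  · intro t
    rw [hV]
    unfold lev
    rw [List.map_map]
    rfl

theorem CL_sub {J J' : ℕ} {V V' : (Fin k → ℤ) → N} (h : CL ρ 𝒬 J V) (h' : CL ρ 𝒬 J' V') :
    CL ρ 𝒬 (J + J') (fun m => V m - V' m) := by
  obtain ⟨L, hJ, hL, hV⟩ := h
  obtain ⟨L', hJ', hL', hV'⟩ := h'
  refine ⟨L ++ L'.map fun x => (x.1, -x.2), ?_, ?_, ?_⟩
  · rw [List.length_append, List.length_map]
    omega
  · intro y hy
    rcases List.mem_append.mp hy with hy | hy
    · exact hL y hy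
    · obtain ⟨x, hx, rfl⟩ := List.mem_map.mp hy
      exact hL' x hx
  · intro m
    show V m - V' m = _
    rw [List.map_append, List.sum_append, List.map_map, hV, hV', sub_eq_add_neg]
    congr 1
    have key : ∀ L' : List (((Fin k → ℤ) → G) × N),
        -(L'.map fun x => ρ (x.1 m) x.2).sum =
        (L'.map ((fun x : ((Fin k → ℤ) → G) × N => ρ (x.1 m) x.2) ∘
          fun x : ((Fin k → ℤ) → G) × N => (x.1, -x.2))).sum := by
      intro L'
      induction L' with
      | nil => simp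
      | cons x L' ih =>
        rw [List.map_cons, List.sum_cons, List.map_cons, List.sum_cons, ← ih, neg_add]
        congr 1
        exact (map_neg _ _).symm
    exact key L'

theorem CL_freeze (hc : ∀ c : G, (fun _ => c) ∈ 𝒬) {J : ℕ} {V : (Fin k → ℤ) → N}
    (h : CL ρ 𝒬 J V) (l : Fin k) (s : ℤ) : CL ρ 𝒬 J (fun m => V (Function.update m l s)) := by
  obtain ⟨L, hJ, hL, hV⟩ := h
  refine ⟨L.map fun x => (fun m => x.1 (Function.update m l s), x.2), by rwa [List.length_map],
    ?_, ?_⟩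
  · intro y hy
    obtain ⟨x, hx, rfl⟩ := List.mem_map.mp hy
    exact SG_freeze hc (hL x hx) l s
  · intro m
    show V (Function.update m l s) = _
    rw [hV, List.map_map]
    rfl

theorem CL_mix (hc : ∀ c : G, (fun _ => c) ∈ 𝒬) {J : ℕ} {V : (Fin k → ℤ) → N}
    (h : CL ρ 𝒬 J V) (E : Finset (Fin k)) : CL ρ 𝒬 J (fun m => V (mix E m 0)) := by
  obtain ⟨L, hJ, hL, hV⟩ := h
  refine ⟨L.map fun x => (fun m => x.1 (mix E m 0), x.2), by rwa [List.length_map],
    ?_, ?_⟩
  · intro y hy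
    obtain ⟨x, hx, rfl⟩ := List.mem_map.mp hy
    exact SG_mix hc (hL x hx) E
  · intro m
    show V (mix E m 0) = _
    rw [hV, List.map_map]
    rfl

/-- **The dichotomy for sums over polynomial sequences in nilpotent groups.** -/
theorem dich_CL (hQ : 𝒬 ≤ QQ F 0) (hc : ∀ c : G, (fun _ => c) ∈ 𝒬)
    (hs : ∀ g ∈ 𝒬, ∀ h, sh h g ∈ 𝒬) (hper : PerC ρ 𝒬) {J : ℕ} {V : (Fin k → ℤ) → N}
    (hV : CL ρ 𝒬 J V) (l : Fin k) :
    (∀ (m : Fin k → ℤ) (t : ℤ), V (Function.update m l t) = V m) ∨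
      FewB l (fun n => V (nz n)) := by
  have H : Slb (CL (k := k) ρ 𝒬 (J + J)) := by
    obtain ⟨C, δ, hC, hδ, hδ1, h⟩ := one_var hQ hc hs hper (J + J)
    refine ⟨C, δ, hC, hδ, hδ1, fun V hV m l w => ?_⟩
    obtain ⟨L, hLJ, hL, hLV⟩ := CL_slice hV m l
    rcases h L hLJ hL w with h1 | h1
    · left
      intro t
      rw [hLV, h1]
    · right
      intro M hM Z hZ
      apply h1 M hM Z
      intro t ht
      refine ⟨(hZ t ht).1, ?_⟩
      rw [← hLV]
      exact (hZ t ht).2
  have hV' : CL ρ 𝒬 (J + J) V := by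
    obtain ⟨L, hJ, hL, hV⟩ := hV
    exact ⟨L, by omega, hL, hV⟩
  exact dich H hV' l fun s s' => CL_sub (CL_freeze hc hV l s) (CL_freeze hc hV l s')

/-- **Values in a fixed subgroup.** -/
theorem fix_CL (hQ : 𝒬 ≤ QQ F 0) (hc : ∀ c : G, (fun _ => c) ∈ 𝒬)
    (hs : ∀ g ∈ 𝒬, ∀ h, sh h g ∈ 𝒬) {K : AddSubgroup N}
    (hK : ∀ g, ∀ x ∈ K, ρ g x = x) {J : ℕ} {V : (Fin k → ℤ) → N}
    (hV : CL ρ 𝒬 J V) (hVK : ∀ m, V m ∈ K) : ∃ d, IsPoly d V := by
  obtain ⟨d, hd⟩ := fix_list hQ hc hs hK J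
  refine ⟨k * d, sep_isPoly fun m l => ?_⟩
  obtain ⟨L, hJ, hL, hLV⟩ := CL_slice hV m l
  have e : (fun t => V (Function.update m l t)) = lev ρ L := funext hLV
  rw [e]
  apply hd L hJ hL
  intro t
  rw [← hLV]
  exact hVK _

end cls

end

end Pool.Agent.TH635.NP
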