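import Pool.Agent.Helper28.LCN.Seq
import Pool.Agent.Helper28.LCN.LcsComm
import Pool.Agent.TH635.AA.Pol

/-!
# Polynomial sequences in nilpotent groups: the filtration used by the PET induction

Uses the Lazard–Leibman theorem `Q_all` of `Pool/Agent/Helper28/LCN/Seq.lean`.
-/

set_option autoImplicit false

namespace Pool.Agent.TH635.NP

open Pool.Agent.Helper28.LCN (dd Q Q_all Q_drop Q_weak Q_le Q_val lcs_comm_top)
open Pool.Agent.TH635.AA (Pol Pol_diff Pol_zero)
open scoped commutatorElement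

variable {G : Type} [Group G]

/-- A central filtration `Φ 0 ⊇ Φ 1 ⊇ ⋯ ⊇ Φ s = 1` with `[Φ i, Φ j] ⊆ Φ (i + j)`. -/
structure Filt (G : Type) [Group G] where
  Φ : ℕ → Subgroup G
  anti : ∀ i, Φ (i + 1) ≤ Φ i
  comm : ∀ i j, ∀ a ∈ Φ i, ∀ b ∈ Φ j, ⁅a, b⁆ ∈ Φ (i + j)
  s : ℕ
  bot : Φ s = ⊥

variable (F : Filt G)

theorem Q_const {i : ℕ} (m : ℕ) {c : G} (hc : c ∈ F.Φ i) : Q F.Φ m i (fun _ => c) := by
  have h1 : ∀ m i, Q F.Φ m i (fun _ => (1 : G)) := by
    intro m
    induction m with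
    | zero => exact fun i n => (F.Φ i).one_mem
    | succ m ih =>
      intro i
      refine ⟨fun n => (F.Φ i).one_mem, fun s => ?_⟩
      have e : dd s (fun _ : ℤ => (1 : G)) = fun _ => 1 := by
        funext n
        simp [dd]
      rw [e]
      exact ih (i + 1)
  cases m with
  | zero => exact fun n => hc
  | succ m =>
    refine ⟨fun n => hc, fun s => ?_⟩
    have e : dd s (fun _ : ℤ => c) = fun _ => 1 := by
      funext n
      simp [dd]
    rw [e]
    exact h1 m (i + 1)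

/-- polynomial sequences -/
def QQ (i : ℕ) : Subgroup (ℤ → G) where
  carrier := {f | ∀ m, Q F.Φ m i f}
  one_mem' := fun m => Q_const F m (F.Φ i).one_mem
  mul_mem' := fun {f g} hf hg m => (Q_all F.Φ F.anti F.comm m).1 i f g (hf m) (hg m)
  inv_mem' := fun {f} hf m => (Q_all F.Φ F.anti F.comm m).2.1 i f (hf m)

variable {F}

theorem mem_QQ {i : ℕ} {f : ℤ → G} : f ∈ QQ F i ↔ ∀ m, Q F.Φ m i f := Iff.rfl

theorem QQ_val {i : ℕ} {f : ℤ → G} (h : f ∈ QQ F i) (n : ℤ) : f n ∈ F.Φ i :=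
  Q_val F.Φ 0 i f (h 0) n

theorem QQ_const {i : ℕ} {c : G} (hc : c ∈ F.Φ i) : (fun _ => c) ∈ QQ F i :=
  fun m => Q_const F m hc

theorem QQ_le {i j : ℕ} (h : i ≤ j) : QQ F j ≤ QQ F i := fun f hf m => Q_le F.Φ F.anti m h f (hf m)

theorem QQ_dd {i : ℕ} {f : ℤ → G} (h : f ∈ QQ F i) (s : ℤ) : dd s f ∈ QQ F (i + 1) :=
  fun m => (h (m + 1)).2 s

theorem QQ_conj {i : ℕ} {f g : ℤ → G} (hf : f ∈ QQ F i) (hg : g ∈ QQ F 0) :
    g⁻¹ * f * g ∈ QQ F i := by
  have hc : (fun n => ⁅(g⁻¹ : ℤ → G) n, f n⁆) ∈ QQ F (0 + i) := fun m =>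
    (Q_all F.Φ F.anti F.comm m).2.2 0 i _ _ ((QQ F 0).inv_mem hg m) (hf m)
  rw [zero_add] at hc
  have e : g⁻¹ * f * g = (fun n => ⁅(g⁻¹ : ℤ → G) n, f n⁆) * f := by
    funext n
    simp only [Pi.mul_apply, Pi.inv_apply, commutatorElement_def]
    group
  rw [e]
  exact (QQ F i).mul_mem hc hf

/-- shift -/
def sh (h : ℤ) (f : ℤ → G) : ℤ → G := fun n => f (n + h)

theorem Q_sh (Φ : ℕ → Subgroup G) (h : ℤ) : ∀ (m i : ℕ) (f : ℤ → G), Q Φ m i f →
    Q Φ m i (sh h f)
  | 0, i, f, hf => fun n => hf _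
  | m + 1, i, f, hf => by
    refine ⟨fun n => hf.1 _, fun s => ?_⟩
    have e : dd s (sh h f) = sh h (dd s f) := by
      funext n
      simp only [dd, sh]
      rw [add_right_comm]
    rw [e]
    exact Q_sh Φ h m (i + 1) (dd s f) (hf.2 s)

theorem QQ_sh {i : ℕ} {f : ℤ → G} (hf : f ∈ QQ F i) (h : ℤ) : sh h f ∈ QQ F i :=
  fun m => Q_sh F.Φ h m i f (hf m)

/-- normalised polynomial sequences -/
def PP (F : Filt G) (i : ℕ) : Subgroup (ℤ → G) where
  carrier := {f | f ∈ QQ F i ∧ f 0 = 1}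
  one_mem' := ⟨(QQ F i).one_mem, rfl⟩
  mul_mem' := fun {f g} hf hg => ⟨(QQ F i).mul_mem hf.1 hg.1, by
    rw [Pi.mul_apply, hf.2, hg.2, one_mul]⟩
  inv_mem' := fun {f} hf => ⟨(QQ F i).inv_mem hf.1, by rw [Pi.inv_apply, hf.2, inv_one]⟩

theorem mem_PP {i : ℕ} {f : ℤ → G} : f ∈ PP F i ↔ f ∈ QQ F i ∧ f 0 = 1 := Iff.rfl

theorem PP_le {i j : ℕ} (h : i ≤ j) : PP F j ≤ PP F i := fun _ hf => ⟨QQ_le h hf.1, hf.2⟩

theorem PP_conj {i : ℕ} {f g : ℤ → G} (hf : f ∈ PP F i) (hg : g ∈ QQ F 0) :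
    g⁻¹ * f * g ∈ PP F i := by
  refine ⟨QQ_conj hf.1 hg, ?_⟩
  rw [Pi.mul_apply, Pi.mul_apply, Pi.inv_apply, hf.2, mul_one, inv_mul_cancel]

theorem PP_top {f : ℤ → G} (hf : f ∈ PP F F.s) : f = 1 := by
  funext n
  have h := QQ_val hf.1 n
  rw [F.bot, Subgroup.mem_bot] at h
  exact h

/-- normalised shift -/
def sg (h : ℤ) (f : ℤ → G) : ℤ → G := fun n => f (n + h) * (f h)⁻¹

theorem sg_norm (h : ℤ) (f : ℤ → G) : sg h f 0 = 1 := by
  simp [sg]

theorem sg_eq (h : ℤ) (f : ℤ → G) : sg h f = sh h f * (fun _ => f h)⁻¹ := rfl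

theorem sg_mem {i : ℕ} {f : ℤ → G} (hf : f ∈ PP F i) (h : ℤ) : sg h f ∈ PP F i := by
  refine ⟨?_, sg_norm h f⟩
  rw [sg_eq]
  exact (QQ F i).mul_mem (QQ_sh hf.1 h) ((QQ F i).inv_mem (QQ_const (QQ_val hf.1 h)))

theorem sg_class {i : ℕ} {f : ℤ → G} (hf : f ∈ PP F i) (h : ℤ) :
    f⁻¹ * sg h f ∈ PP F (i + 1) := by
  refine ⟨?_, ?_⟩
  · have h1 := QQ_dd hf.1 h
    have h2 := QQ_conj h1 (QQ_le (Nat.zero_le i) hf.1)
    have h3 := QQ_val h1 0
    have h4 : dd h f 0 = f h := by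
      simp only [dd, zero_add]
      rw [hf.2, inv_one, mul_one]
    rw [h4] at h3
    have e : f⁻¹ * sg h f = (f⁻¹ * dd h f * f) * (fun _ => f h)⁻¹ := by
      funext n
      simp only [Pi.mul_apply, Pi.inv_apply, sg, dd]
      group
    rw [e]
    exact (QQ F (i + 1)).mul_mem h2 ((QQ F (i + 1)).inv_mem (QQ_const h3))
  · rw [Pi.mul_apply, Pi.inv_apply, sg_norm, hf.2, inv_one, mul_one]

/-- a member of a level stays in the level under the normalised shift -/
theorem sg_level {l : ℕ} {f : ℤ → G} (hf : f ∈ PP F 0) (h : ℤ) :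
    sg h f ∈ PP F l ↔ f ∈ PP F l := by
  constructor
  · intro h1
    -- undo the shift
    have e : f = sg (-h) (sg h f) := by
      funext n
      simp only [sg, neg_add_cancel_right, neg_add_cancel]
      rw [hf.2]
      group
    rw [e]
    exact sg_mem h1 (-h)
  · exact fun h1 => sg_mem h1 h

theorem sg_one_iff {f : ℤ → G} (hf : f 0 = 1) (h : ℤ) : sg h f = 1 ↔ f = 1 := by
  constructor
  · intro h1
    have e : f = sg (-h) (sg h f) := by
      funext n
      simp only [sg, neg_add_cancel_right, neg_add_cancel]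
      rw [hf]
      group
    rw [e, h1]
    funext n
    simp [sg]
  · rintro rfl
    funext n
    simp [sg]

/-- powers with polynomial exponents -/
theorem Q_zpow {F : Filt G} {D : ℕ} (hF : ∀ i ≤ D, F.Φ i = ⊤) (g : G) : ∀ (m i : ℕ) (e : ℤ → ℤ),
    i ≤ D → Pol (D + 1 - i) e → Q F.Φ m i (fun t => g ^ e t)
  | 0, i, e, hi, _ => fun n => by rw [hF i hi]; exact Subgroup.mem_top _
  | m + 1, i, e, hi, he => by
    refine ⟨fun n => by rw [hF i hi]; exact Subgroup.mem_top _, fun s => ?_⟩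
    have e1 : dd s (fun t => g ^ e t) = fun t => g ^ (e (t + s) - e t) := by
      funext n
      simp only [dd]
      rw [zpow_sub]
    rw [e1]
    rcases Nat.lt_or_ge i D with hlt | hge
    · apply Q_zpow hF g m (i + 1) _ hlt
      have h3 : D + 1 - i = (D + 1 - (i + 1)) + 1 := by omega
      rw [h3] at he
      exact Pol_diff he s
    · have hiD : i = D := le_antisymm hi hge
      subst hiD
      have h3 : i + 1 - i = 0 + 1 := by omega
      rw [h3] at he
      have h4 := Pol_diff he s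
      have e2 : (fun t => g ^ (e (t + s) - e t)) = fun _ => (1 : G) := by
        funext t
        rw [Pol_zero.mp h4 t, zpow_zero]
      rw [e2]
      exact Q_const F m (F.Φ (i + 1)).one_mem

/-- the filtration of a nilpotent group adapted to degree `D` -/
noncomputable def lcsFilt (G : Type) [Group G] [Group.IsNilpotent G] (D : ℕ) (hD : 1 ≤ D) :
    Filt G where
  Φ := fun i => (⊤ : Subgroup G).lowerCentralSeries ((i - 1) / D)
  anti := fun i => Subgroup.lowerCentralSeries_antitone _ (Nat.div_le_div_right (by omega))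
  comm := by
    intro i j a ha b hb
    rcases Nat.eq_zero_or_pos i with hi | hi
    · subst hi
      rw [zero_add]
      have hn : ((⊤ : Subgroup G).lowerCentralSeries ((j - 1) / D)).Normal := inferInstance
      rw [commutatorElement_def]
      exact Subgroup.mul_mem _ (hn.conj_mem b hb a) (Subgroup.inv_mem _ hb)
    rcases Nat.eq_zero_or_pos j with hj | hj
    · subst hj
      rw [add_zero]
      have hn : ((⊤ : Subgroup G).lowerCentralSeries ((i - 1) / D)).Normal := inferInstance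
      have e : ⁅a, b⁆ = a * (b * a⁻¹ * b⁻¹) := by
        rw [commutatorElement_def]
        group
      rw [e]
      exact Subgroup.mul_mem _ ha (hn.conj_mem _ (Subgroup.inv_mem _ ha) b)
    have h1 := lcs_comm_top (H := G) ((j - 1) / D) ((i - 1) / D)
      (Subgroup.commutator_mem_commutator ha hb)
    apply Subgroup.lowerCentralSeries_antitone _ _ h1
    have h2 : i - 1 < D * ((i - 1) / D + 1) := Nat.lt_mul_div_succ _ hD
    have h3 : j - 1 < D * ((j - 1) / D + 1) := Nat.lt_mul_div_succ _ hD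
    have h4 : i + j - 1 < D * (((i - 1) / D + (j - 1) / D + 1) + 1) := by
      have : D * (((i - 1) / D + (j - 1) / D + 1) + 1) =
          D * ((i - 1) / D + 1) + D * ((j - 1) / D + 1) := by ring
      omega
    have h5 := Nat.div_lt_of_lt_mul h4
    omega
  s := D * Group.nilpotencyClass G + 1
  bot := by
    show (⊤ : Subgroup G).lowerCentralSeries _ = ⊥
    have e : (D * Group.nilpotencyClass G + 1 - 1) / D = Group.nilpotencyClass G := by
      rw [Nat.add_sub_cancel, Nat.mul_div_cancel_left _ hD]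
    rw [e]
    exact Subgroup.lowerCentralSeries_nilpotencyClass

theorem lcsFilt_top (G : Type) [Group G] [Group.IsNilpotent G] (D : ℕ) (hD : 1 ≤ D) :
    ∀ i ≤ D, (lcsFilt G D hD).Φ i = ⊤ := by
  intro i hi
  show (⊤ : Subgroup G).lowerCentralSeries ((i - 1) / D) = ⊤
  have e : (i - 1) / D = 0 := Nat.div_eq_of_lt (by omega)
  rw [e]
  rfl

end Pool.Agent.TH635.NP
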