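import Pool.Agent.TH635.NP.Mlt
import Pool.Agent.TH635.AA.Lat
import Pool.Agent.TH635.AA.Ply

/-!
# Finitely generated modules: the class of sequences for which periodic sums are constant
-/

set_option autoImplicit false

namespace Pool.Agent.TH635.NP

open Pool.Agent.TH635.AA (Pol Pol_mono lattice sep_eval eval_modEq)

section per

variable {N : Type*} [AddCommGroup N]

/-- periods modulo a subgroup -/
def pers (f : ℤ → N) (K : AddSubgroup N) : AddSubgroup ℤ where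
  carrier := {a | ∀ n, f (n + a) - f n ∈ K}
  zero_mem' := by
    intro n
    rw [add_zero, sub_self]
    exact K.zero_mem
  add_mem' := by
    intro a b ha hb n
    have h1 := K.add_mem (hb (n + a)) (ha n)
    rw [sub_add_sub_cancel, add_assoc] at h1
    exact h1
  neg_mem' := by
    intro a ha n
    have h1 := K.neg_mem (ha (n + -a))
    rw [neg_sub, neg_add_cancel_right] at h1
    exact h1

theorem mem_pers {f : ℤ → N} {K : AddSubgroup N} {a : ℤ} :
    a ∈ pers f K ↔ ∀ n, f (n + a) - f n ∈ K := Iff.rfl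

theorem gcd_mem {H : AddSubgroup ℤ} {a b : ℤ} (ha : a ∈ H) (hb : b ∈ H) {c : ℤ}
    (hc : (Int.gcd a b : ℤ) ∣ c) : c ∈ H := by
  obtain ⟨d, rfl⟩ := hc
  rw [Int.gcd_eq_gcd_ab, add_mul]
  apply H.add_mem
  · have : a * a.gcdA b * d = (a.gcdA b * d) • a := by
      rw [smul_eq_mul]
      ring
    rw [this]
    exact H.zsmul_mem ha _
  · have : b * a.gcdB b * d = (a.gcdB b * d) • b := by
      rw [smul_eq_mul]
      ring
    rw [this]
    exact H.zsmul_mem hb _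

theorem one_mem_pers {f : ℤ → N} (h : (1 : ℤ) ∈ pers f ⊥) (n : ℤ) : f n = f 0 := by
  have h1 : n ∈ pers f ⊥ := by
    have := (pers f ⊥).zsmul_mem h n
    rwa [smul_eq_mul, mul_one] at this
  have h2 := h1 0
  rw [zero_add, AddSubgroup.mem_bot] at h2
  exact sub_eq_zero.mp h2

/-- multiples -/
def mulK (N : Type*) [AddCommGroup N] (c : ℕ) : AddSubgroup N :=
  (nsmulAddMonoidHom c : N →+ N).range

theorem mem_mulK {c : ℕ} {x : N} : x ∈ mulK N c ↔ ∃ y, c • y = x := Iff.rfl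

theorem mulK_map {N' : Type*} [AddCommGroup N'] (u : N →+ N') {c : ℕ} {x : N}
    (h : x ∈ mulK N c) : u x ∈ mulK N' c := by
  obtain ⟨y, rfl⟩ := h
  exact ⟨u y, (map_nsmul u c y).symm⟩

theorem mulK_anti {c c' : ℕ} (h : c ∣ c') : mulK N c' ≤ mulK N c := by
  rintro _ ⟨y, rfl⟩
  obtain ⟨d, rfl⟩ := h
  refine ⟨d • y, ?_⟩
  show c • d • y = (c * d) • y
  rw [mul_smul]

end per

section grp

variable {G : Type} [Group G] {N : Type*} [AddCommGroup N] (ρ : G →* AddMonoid.End N)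

theorem rho_mul (g h : G) (x : N) : ρ (g * h) x = ρ g (ρ h x) := by
  rw [map_mul]
  rfl

theorem rho_inv (g : G) (x : N) : ρ g⁻¹ (ρ g x) = x := by
  rw [← rho_mul, inv_mul_cancel, map_one]
  rfl

theorem rho_mulK (g : G) {c : ℕ} {x : N} (h : x ∈ mulK N c) : ρ g x ∈ mulK N c :=
  mulK_map (ρ g : N →+ N) h

/-- the elements acting trivially modulo `c` -/
def Kc (c : ℕ) : Subgroup G where
  carrier := {g | ∀ x, ρ g x - x ∈ mulK N c}
  one_mem' := by
    intro x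
    rw [map_one]
    show x - x ∈ _
    rw [sub_self]
    exact (mulK N c).zero_mem
  mul_mem' := by
    intro g h hg hh x
    have h1 := (mulK N c).add_mem (rho_mulK ρ g (hh x)) (hg x)
    rw [map_sub, sub_add_sub_cancel, ← rho_mul] at h1
    exact h1
  inv_mem' := by
    intro g hg x
    have h1 := (mulK N c).neg_mem (rho_mulK ρ g⁻¹ (hg x))
    rw [map_sub, neg_sub, rho_inv] at h1
    exact h1

theorem mem_Kc {c : ℕ} {g : G} : g ∈ Kc ρ c ↔ ∀ x, ρ g x - x ∈ mulK N c := Iff.rfl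

instance Kc_normal (c : ℕ) : (Kc ρ c).Normal where
  conj_mem := by
    intro g hg h x
    have h1 := rho_mulK ρ h (hg (ρ h⁻¹ x))
    have h2 : ρ h (ρ h⁻¹ x) = x := by
      rw [← rho_mul, mul_inv_cancel, map_one]
      rfl
    rw [map_sub, h2, ← rho_mul, ← rho_mul] at h1
    exact h1

theorem Kc_anti {c c' : ℕ} (h : c ∣ c') : Kc ρ c' ≤ Kc ρ c := fun _ hg x => mulK_anti h (hg x)

theorem Kc_pow {p b : ℕ} (hb : 1 ≤ b) {g : G} (h : g ∈ Kc ρ (p ^ b)) :
    g ^ p ∈ Kc ρ (p ^ (b + 1)) := by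
  intro x
  have hg : g ∈ Kc ρ p := Kc_anti ρ (dvd_pow_self p (by omega)) h
  have h1 : ∀ i : ℕ, ∃ y, p • y = ρ (g ^ i) x - x := fun i => (Kc ρ p).pow_mem hg i x
  choose y hy using h1
  have h2 : ∑ i ∈ Finset.range p, ρ (g ^ i) x = p • (x + ∑ i ∈ Finset.range p, y i) := by
    have : ∀ i ∈ Finset.range p, ρ (g ^ i) x = x + p • y i := fun i _ => by
      rw [hy]
      abel
    rw [Finset.sum_congr rfl this, Finset.sum_add_distrib, Finset.sum_const, Finset.card_range,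
      smul_add, Finset.smul_sum]
  have h3 : ρ (g ^ p) x - x = ρ g (∑ i ∈ Finset.range p, ρ (g ^ i) x) -
      ∑ i ∈ Finset.range p, ρ (g ^ i) x := by
    rw [map_sum, ← Finset.sum_sub_distrib]
    have h4 : ∀ i ∈ Finset.range p, ρ g (ρ (g ^ i) x) - ρ (g ^ i) x =
        ρ (g ^ (i + 1)) x - ρ (g ^ i) x := fun i _ => by
      rw [← rho_mul, ← pow_succ']
    rw [Finset.sum_congr rfl h4, Finset.sum_range_sub (fun i => ρ (g ^ i) x), pow_zero, map_one]
    rfl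
  obtain ⟨z, hz⟩ := h (x + ∑ i ∈ Finset.range p, y i)
  refine ⟨z, ?_⟩
  rw [h3, h2, map_nsmul, ← smul_sub, ← hz]
  show p ^ (b + 1) • z = p • p ^ b • z
  rw [← mul_smul, pow_succ']

theorem Kc_pow' {p : ℕ} {g : G} (h : g ∈ Kc ρ p) (i : ℕ) : g ^ (p ^ i) ∈ Kc ρ (p ^ (i + 1)) := by
  induction i with
  | zero =>
    rw [pow_zero, pow_one, pow_one]
    exact h
  | succ i ih =>
    have h1 := Kc_pow ρ (by omega) ih
    rwa [← pow_mul, ← pow_succ] at h1

theorem Kc_fin [AddGroup.FG N] {c : ℕ} (hc : 1 ≤ c) : ∃ q : ℕ, 1 ≤ q ∧ ∀ g, g ^ q ∈ Kc ρ c := by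
  classical
  have hfin : Finite (N ⧸ mulK N c) := by
    apply AddCommGroup.finite_of_fg_isAddTorsion
    intro x
    induction x using QuotientAddGroup.induction_on with
    | H x =>
      rw [isOfFinAddOrder_iff_nsmul_eq_zero]
      refine ⟨c, hc, ?_⟩
      rw [← QuotientAddGroup.mk_nsmul, QuotientAddGroup.eq_zero_iff]
      exact ⟨x, rfl⟩
  -- the action on the quotient
  let φ : G →* AddMonoid.End (N ⧸ mulK N c) :=
    { toFun := fun g => QuotientAddGroup.map (mulK N c) (mulK N c) (ρ g : N →+ N)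
        (fun x hx => mulK_map (ρ g : N →+ N) hx)
      map_one' := by
        refine DFunLike.ext _ _ fun x => ?_
        induction x using QuotientAddGroup.induction_on with
        | H x =>
          show (QuotientAddGroup.mk (ρ 1 x) : N ⧸ mulK N c) = QuotientAddGroup.mk x
          rw [map_one]
          rfl
      map_mul' := by
        intro g h
        refine DFunLike.ext _ _ fun x => ?_
        induction x using QuotientAddGroup.induction_on with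
        | H x =>
          show (QuotientAddGroup.mk (ρ (g * h) x) : N ⧸ mulK N c) =
            QuotientAddGroup.mk (ρ g (ρ h x))
          rw [rho_mul] }
  have hfe : Finite (AddMonoid.End (N ⧸ mulK N c)) :=
    Finite.of_injective (fun f : (N ⧸ mulK N c) →+ (N ⧸ mulK N c) => (f : _ → _))
      DFunLike.coe_injective
  refine ⟨Nat.card (AddMonoid.End (N ⧸ mulK N c))ˣ, Nat.card_pos, fun g x => ?_⟩
  have h1 : φ (g ^ Nat.card (AddMonoid.End (N ⧸ mulK N c))ˣ) = 1 := by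
    have h2 : (φ.toHomUnits (g ^ Nat.card (AddMonoid.End (N ⧸ mulK N c))ˣ)) = 1 := by
      rw [map_pow]
      exact pow_card_eq_one'
    rw [← MonoidHom.coe_toHomUnits φ, h2]
    rfl
  have h3 : (QuotientAddGroup.mk (ρ (g ^ Nat.card (AddMonoid.End (N ⧸ mulK N c))ˣ) x) :
      N ⧸ mulK N c) = QuotientAddGroup.mk x := DFunLike.congr_fun h1 (QuotientAddGroup.mk x)
  rw [eq_comm, QuotientAddGroup.eq] at h3
  rwa [sub_eq_neg_add]

/-- sequences which are periodic modulo a normal subgroup -/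
def PM (a : ℤ) (K : Subgroup G) [K.Normal] : Subgroup (ℤ → G) where
  carrier := {g | ∀ n, QuotientGroup.mk' K (g (n + a)) = QuotientGroup.mk' K (g n)}
  one_mem' := fun _ => rfl
  mul_mem' := by
    intro f g hf hg n
    rw [Pi.mul_apply, Pi.mul_apply, map_mul, map_mul, hf, hg]
  inv_mem' := by
    intro f hf n
    rw [Pi.inv_apply, Pi.inv_apply, map_inv, map_inv, hf]

theorem mem_PM {a : ℤ} {K : Subgroup G} [K.Normal] {g : ℤ → G} :
    g ∈ PM a K ↔ ∀ n, QuotientGroup.mk' K (g (n + a)) = QuotientGroup.mk' K (g n) := Iff.rfl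

theorem PM_le {a b : ℤ} {K : Subgroup G} [K.Normal] (h : a ∣ b) : PM a K ≤ PM b K := by
  obtain ⟨c, rfl⟩ := h
  intro g hg
  have key : ∀ (m : ℕ) (n : ℤ), QuotientGroup.mk' K (g (n + a * m)) =
      QuotientGroup.mk' K (g n) := by
    intro m
    induction m with
    | zero =>
      intro n
      simp
    | succ m ih =>
      intro n
      have h1 := hg (n + a * m)
      rw [ih] at h1
      rw [← h1]
      congr 2
      push_cast
      ring
  intro n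
  rcases Int.eq_nat_or_neg c with ⟨m, rfl | rfl⟩
  · exact key m n
  · rw [← key m (n + a * -(m : ℤ))]
    congr 2
    ring

theorem PM_const {a : ℤ} {K : Subgroup G} [K.Normal] (c : G) : (fun _ => c) ∈ PM a K :=
  fun _ => rfl

theorem PM_sh {a : ℤ} {K : Subgroup G} [K.Normal] {g : ℤ → G} (h : g ∈ PM a K) (s : ℤ) :
    sh s g ∈ PM a K := by
  intro n
  show QuotientGroup.mk' K (g (n + a + s)) = QuotientGroup.mk' K (g (n + s))
  rw [← h (n + s)]
  congr 2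
  ring

/-- sequences with a period which is a power of `p` -/
def PMp (p : ℕ) (K : Subgroup G) [K.Normal] : Subgroup (ℤ → G) where
  carrier := {g | ∃ b : ℕ, g ∈ PM ((p : ℤ) ^ b) K}
  one_mem' := ⟨0, (PM _ K).one_mem⟩
  mul_mem' := by
    rintro f g ⟨b, hb⟩ ⟨b', hb'⟩
    exact ⟨b + b', (PM _ K).mul_mem (PM_le (pow_dvd_pow _ (by omega)) hb)
      (PM_le (pow_dvd_pow _ (by omega)) hb')⟩
  inv_mem' := by
    rintro f ⟨b, hb⟩
    exact ⟨b, (PM _ K).inv_mem hb⟩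

theorem ev_per {a : ℤ} {c : ℕ} {B : Fm G N} (h : ∀ g ∈ B.support, g ∈ PM a (Kc ρ c)) :
    a ∈ pers (ev ρ B) (mulK N c) := by
  intro n
  unfold ev Finsupp.sum
  rw [← Finset.sum_sub_distrib]
  apply AddSubgroup.sum_mem
  intro g hg
  have h1 := h g hg n
  rw [eq_comm] at h1
  have h2 : (g n)⁻¹ * g (n + a) ∈ Kc ρ c := QuotientGroup.eq.mp h1
  have h3 := rho_mulK ρ (g n) (h2 (B g))
  rw [map_sub, ← rho_mul, mul_inv_cancel_left] at h3
  exact h3

theorem ev_perp {p c : ℕ} {B : Fm G N} (h : ∀ g ∈ B.support, g ∈ PMp p (Kc ρ c)) :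
    ∃ b : ℕ, (p : ℤ) ^ b ∈ pers (ev ρ B) (mulK N c) := by
  classical
  have h' : ∀ g, ∃ b : ℕ, g ∈ B.support → g ∈ PM ((p : ℤ) ^ b) (Kc ρ c) := by
    intro g
    by_cases hg : g ∈ B.support
    · obtain ⟨b, hb⟩ := h g hg
      exact ⟨b, fun _ => hb⟩
    · exact ⟨0, fun h => absurd h hg⟩
  choose b hb using h'
  exact ⟨B.support.sup b, ev_per ρ fun g hg =>
    PM_le (pow_dvd_pow _ (Finset.le_sup hg)) (hb g hg)⟩

/-- the class of sequences -/
def QT (F : Filt G) (p l t : ℕ) : Subgroup (ℤ → G) :=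
  ((QQ F 0 ⊓ ⨅ i : ℕ, PMp p (Kc ρ (p ^ i))) ⊓ ⨅ i : ℕ, PMp l (Kc ρ (l ^ i))) ⊓ PM 1 (Kc ρ t)

variable {F : Filt G} {ρ}

theorem mem_QT {p l t : ℕ} {g : ℤ → G} : g ∈ QT ρ F p l t ↔
    ((g ∈ QQ F 0 ∧ ∀ i : ℕ, g ∈ PMp p (Kc ρ (p ^ i))) ∧ ∀ i : ℕ, g ∈ PMp l (Kc ρ (l ^ i))) ∧
      g ∈ PM 1 (Kc ρ t) := by
  unfold QT
  rw [Subgroup.mem_inf, Subgroup.mem_inf, Subgroup.mem_inf, Subgroup.mem_iInf, Subgroup.mem_iInf]

theorem QT_le {p l t : ℕ} : QT ρ F p l t ≤ QQ F 0 := fun _ h => (mem_QT.mp h).1.1.1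

theorem QT_const (hF : F.Φ 0 = ⊤) {p l t : ℕ} (c : G) : (fun _ => c) ∈ QT ρ F p l t :=
  mem_QT.mpr ⟨⟨⟨QQ_const (by rw [hF]; exact Subgroup.mem_top _), fun _ => ⟨0, PM_const c⟩⟩,
    fun _ => ⟨0, PM_const c⟩⟩, PM_const c⟩

theorem QT_sh {p l t : ℕ} : ∀ g ∈ QT ρ F p l t, ∀ h, sh h g ∈ QT ρ F p l t := by
  intro g hg h
  rw [mem_QT] at hg ⊢
  refine ⟨⟨⟨QQ_sh hg.1.1.1 h, fun i => ?_⟩, fun i => ?_⟩, PM_sh hg.2 h⟩
  · obtain ⟨b, hb⟩ := hg.1.1.2 i
    exact ⟨b, PM_sh hb h⟩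
  · obtain ⟨b, hb⟩ := hg.1.2 i
    exact ⟨b, PM_sh hb h⟩

theorem tf_div {n : ℕ} {p : ℕ} (hp : p.Prime) {x : Fin n →₀ ℤ}
    (h : ∀ i : ℕ, x ∈ mulK (Fin n →₀ ℤ) (p ^ i)) : x = 0 := by
  ext j
  rw [Finsupp.zero_apply]
  by_contra hx
  have h1 : ∀ i : ℕ, ((p : ℤ) ^ i) ∣ x j := by
    intro i
    obtain ⟨y, hy⟩ := h i
    refine ⟨y j, ?_⟩
    rw [← hy]
    show (p ^ i • y) j = _
    rw [Finsupp.smul_apply, nsmul_eq_mul]
    push_cast
    rfl
  have h2 : ((p : ℤ) ^ (x j).natAbs) ∣ x j := h1 _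
  have h3 := Int.natAbs_dvd_natAbs.mpr h2
  rw [Int.natAbs_pow, Int.natAbs_natCast] at h3
  have h4 := Nat.le_of_dvd (Int.natAbs_pos.mpr hx) h3
  have h5 := Nat.lt_pow_self hp.one_lt (n := (x j).natAbs)
  omega

/-- **Periodic sums are constant.** -/
theorem PerC_QT [AddGroup.FG N] : ∃ t : ℕ, 1 ≤ t ∧ ∀ (F : Filt G), PerC ρ (QT ρ F 2 3 t) := by
  obtain ⟨n, π, σ, e, he, _, hker, _⟩ := lattice (⊥ : AddSubgroup N)
  refine ⟨e, he, fun F J B hB h hh hper => ?_⟩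
  have key : ∀ p : ℕ, p.Prime → (∀ g ∈ B.support, ∀ i : ℕ, g ∈ PMp p (Kc ρ (p ^ i))) →
      ∃ v : ℕ, ((p : ℤ) ^ v) ∈ pers (fun n => π (ev ρ B n)) ⊥ := by
    intro p hp hBp
    refine ⟨h.factorization p, ?_⟩
    intro m
    show π (ev ρ B (m + (p : ℤ) ^ h.factorization p)) - π (ev ρ B m) ∈ (⊥ : AddSubgroup _)
    rw [AddSubgroup.mem_bot]
    apply tf_div hp
    intro i
    rw [← map_sub]
    apply mulK_map π
    obtain ⟨b, hb⟩ := ev_perp ρ fun g hg => hBp g hg i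
    have hh' : (h : ℤ) ∈ pers (ev ρ B) (mulK N (p ^ i)) := by
      intro m
      rw [hper, sub_self]
      exact AddSubgroup.zero_mem _
    refine gcd_mem hb hh' ?_ m
    have h1 : Int.gcd ((p : ℤ) ^ b) h = Nat.gcd (p ^ b) h := by
      rw [← Nat.cast_pow, Int.gcd_natCast_natCast]
    rw [h1, ← Nat.cast_pow, Int.natCast_dvd_natCast]
    obtain ⟨j, _, hj2⟩ := (Nat.dvd_prime_pow hp).mp (Nat.gcd_dvd_left (p ^ b) h)
    rw [hj2]
    apply pow_dvd_pow
    rw [← hp.pow_dvd_iff_le_factorization (by omega), ← hj2]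
    exact Nat.gcd_dvd_right _ _
  obtain ⟨v, hv⟩ := key 2 Nat.prime_two fun g hg => (mem_QT.mp (hB.1 g hg).1).1.1.2
  obtain ⟨w, hw⟩ := key 3 Nat.prime_three fun g hg => (mem_QT.mp (hB.1 g hg).1).1.2
  have h1 : (1 : ℤ) ∈ pers (fun n => π (ev ρ B n)) ⊥ := by
    apply gcd_mem hv hw
    have : Int.gcd (((2 : ℕ) : ℤ) ^ v) (((3 : ℕ) : ℤ) ^ w) = 1 := by
      rw [← Nat.cast_pow, ← Nat.cast_pow, Int.gcd_natCast_natCast]
      exact Nat.Coprime.pow v w (by norm_num)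
    rw [this]
    rfl
  have h2 : (1 : ℤ) ∈ pers (ev ρ B) (mulK N e) :=
    ev_per ρ fun g hg => (mem_QT.mp (hB.1 g hg).1).2
  have h3 : (1 : ℤ) ∈ pers (ev ρ B) ⊥ := by
    intro m
    rw [AddSubgroup.mem_bot]
    obtain ⟨y, hy⟩ := h2 m
    have h4 : π (ev ρ B (m + 1) - ev ρ B m) = 0 := by
      have h5 := h1 m
      rw [AddSubgroup.mem_bot] at h5
      rw [map_sub]
      exact h5
    have hy' : e • y = ev ρ B (m + 1) - ev ρ B m := hy
    rw [← hy', map_nsmul] at h4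
    have h5 : π y = 0 := by
      rcases smul_eq_zero.mp h4 with h6 | h6
      · omega
      · exact h6
    have h6 := hker y h5
    rw [AddSubgroup.mem_bot] at h6
    rw [← hy', h6]
  exact one_mem_pers h3

/-- powers with polynomial exponents -/
theorem zpow_PMp {p q : ℕ} {g : G} (hq : g ^ q ∈ Kc ρ p) {e : ℤ → ℤ}
    (he : ∀ (b : ℕ) (t : ℤ), ((q * p ^ b : ℕ) : ℤ) ∣ e (t + (p : ℤ) ^ b) - e t) (i : ℕ) :
    (fun t => g ^ e t) ∈ PMp p (Kc ρ (p ^ i)) := by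
  refine ⟨i, fun t => ?_⟩
  symm
  apply QuotientGroup.eq.mpr
  show (g ^ e t)⁻¹ * g ^ e (t + (p : ℤ) ^ i) ∈ _
  rw [← zpow_neg, ← zpow_add, neg_add_eq_sub]
  obtain ⟨c, hc⟩ := he i t
  rw [hc, zpow_mul, zpow_natCast, pow_mul]
  exact Subgroup.zpow_mem _ (Kc_anti ρ (pow_dvd_pow _ (Nat.le_succ _)) (Kc_pow' ρ hq i)) _

theorem zpow_PM1 {c q : ℕ} {g : G} (hq : g ^ q ∈ Kc ρ c) {e : ℤ → ℤ}
    (he : ∀ t : ℤ, (q : ℤ) ∣ e (t + 1) - e t) : (fun t => g ^ e t) ∈ PM 1 (Kc ρ c) := by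
  intro t
  symm
  apply QuotientGroup.eq.mpr
  show (g ^ e t)⁻¹ * g ^ e (t + 1) ∈ _
  rw [← zpow_neg, ← zpow_add, neg_add_eq_sub]
  obtain ⟨d, hd⟩ := he t
  rw [hd, zpow_mul, zpow_natCast]
  exact Subgroup.zpow_mem _ hq _

theorem zpow_QQ {D : ℕ} (hF : ∀ i ≤ D, F.Φ i = ⊤) (g : G) {e : ℤ → ℤ} (he : Pol (D + 1) e) :
    (fun t => g ^ e t) ∈ QQ F 0 := fun m => Q_zpow hF g m 0 e (Nat.zero_le _) he

/-- **The class of sequences for polynomial exponents on residue classes.** -/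
theorem toral_class [AddGroup.FG N] {k D d : ℕ} (hF : ∀ i ≤ D, F.Φ i = ⊤) :
    ∃ (𝒬 : Subgroup (ℤ → G)) (q : ℕ), 1 ≤ q ∧ 𝒬 ≤ QQ F 0 ∧ (∀ c : G, (fun _ => c) ∈ 𝒬) ∧
      (∀ g ∈ 𝒬, ∀ h, sh h g ∈ 𝒬) ∧ PerC ρ 𝒬 ∧
      ∀ (T : Fin d → G) (P : Fin d → MvPolynomial (Fin k) ℤ), (∀ i, (P i).totalDegree ≤ D) →
        ∀ r : Fin k → ℤ, SG 𝒬 (fun m : Fin k → ℤ => (List.ofFn fun i =>
          T i ^ MvPolynomial.eval (fun l => r l + q * m l) (P i)).prod) := by
  obtain ⟨t, ht, hper⟩ := PerC_QT (ρ := ρ)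
  obtain ⟨q, hq, hqK⟩ := Kc_fin ρ (c := 2 * 3 * t) (by omega)
  refine ⟨QT ρ F 2 3 t, q, hq, QT_le, QT_const (hF 0 (Nat.zero_le _)), QT_sh, hper F, ?_⟩
  intro T P hP r m l
  have e1 : (fun s => (List.ofFn fun i => T i ^
      MvPolynomial.eval (fun l' => r l' + q * Function.update m l s l') (P i)).prod) =
      (List.ofFn fun i => fun s => T i ^
      MvPolynomial.eval (fun l' => r l' + q * Function.update m l s l') (P i)).prod := by
    funext s
    have h1 := map_list_prod (Pi.evalMonoidHom (fun _ : ℤ => G) s) (List.ofFn fun i => fun s => T i ^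
      MvPolynomial.eval (fun l' => r l' + q * Function.update m l s l') (P i))
    rw [List.map_ofFn] at h1
    exact h1.symm
  rw [e1]
  apply Subgroup.list_prod_mem
  intro x hx
  obtain ⟨i, rfl⟩ := (List.mem_ofFn' _ _).mp hx
  have hcong : ∀ (c s : ℤ), (q : ℤ) * c ∣
      MvPolynomial.eval (fun l' => r l' + q * Function.update m l (s + c) l') (P i) -
      MvPolynomial.eval (fun l' => r l' + q * Function.update m l s l') (P i) := by
    intro c s
    apply Int.ModEq.dvd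
    apply eval_modEq
    intro j
    rw [Int.modEq_iff_dvd]
    by_cases hj : j = l
    · subst hj
      rw [Function.update_self, Function.update_self]
      exact ⟨1, by ring⟩
    · rw [Function.update_of_ne hj, Function.update_of_ne hj]
      exact ⟨0, by ring⟩
  rw [mem_QT]
  refine ⟨⟨⟨?_, fun i' => ?_⟩, fun i' => ?_⟩, ?_⟩
  · exact zpow_QQ hF (T i) (sep_eval (P i) (hP i) q r m l)
  · apply zpow_PMp (q := q) (Kc_anti ρ ⟨3 * t, by ring⟩ (hqK (T i)))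
    intro b s
    push_cast
    exact hcong _ _
  · apply zpow_PMp (q := q) (Kc_anti ρ ⟨2 * t, by ring⟩ (hqK (T i)))
    intro b s
    push_cast
    exact hcong _ _
  · apply zpow_PM1 (q := q) (Kc_anti ρ ⟨2 * 3, by ring⟩ (hqK (T i)))
    intro s
    have := hcong 1 s
    rwa [mul_one] at this

end grp

end Pool.Agent.TH635.NP
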